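import Pool.Agent.helper29.GR.Growth
import Pool.Agent.helper77.BB.B5a

/-!
# Composition of maps with `A`-parametric representation with transition maps
-/

set_option autoImplicit false

namespace Pool.Agent.helper29.GR

open Metric MeasureTheory Set Filter Topology
open Pool.Agent.helper37.PR

variable {E : Type} [NormedAddCommGroup E] [InnerProductSpace ℂ E] [CompleteSpace E]
variable {A : E →L[ℂ] E}

theorem ae_shift (T : ℝ) {p : ℝ → Prop} (h : ∀ᵐ t : ℝ, p t) : ∀ᵐ t : ℝ, p (t - T) :=
  (measurePreserving_sub_right volume T).quasiMeasurePreserving.ae h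

theorem comp_paramRep {f : E → E} (hf : ParamRep A f) {h1 v1 : E → ℝ → E} {T : ℝ} (hT : 0 ≤ T)
    (hH1 : IsHerglotz A h1) (hL1 : IsLoewner h1 v1)
    (hVan : AnalyticOnNhd ℂ (fun z => v1 z T) (ball 0 1)) (hV0 : v1 0 T = 0)
    (hVd : HasFDerivAt (fun z => v1 z T) (NormedSpace.exp (((-T : ℝ) : ℂ) • A)) 0) :
    ParamRep A (fun z => (NormedSpace.exp ((T : ℂ) • A)) (f (v1 z T))) := by
  obtain ⟨hfan, hf0, hfd, h, v, hH, hL, hlim⟩ := hf
  have hVball : ∀ z ∈ ball (0 : E) 1, v1 z T ∈ ball (0 : E) 1 := fun z hz => hL1.mem z hz T hT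
  set X : E →L[ℂ] E := NormedSpace.exp ((T : ℂ) • A) with hX
  refine ⟨?_, ?_, ?_, ?_⟩
  · intro z hz
    have h2 : AnalyticAt ℂ (fun z => f (v1 z T)) z :=
      AnalyticAt.comp (g := f) (f := fun z => v1 z T) (hfan _ (hVball z hz)) (hVan z hz)
    exact AnalyticAt.comp (g := fun y => X y) (f := fun z => f (v1 z T)) (X.analyticAt _) h2
  · simp [hV0, hf0]
  · have h2 : HasFDerivAt f (ContinuousLinearMap.id ℂ E) (v1 0 T) := by
      rw [hV0, ← hfd]
      exact (hfan 0 (by simp)).differentiableAt.hasFDerivAt
    have h3 := X.hasFDerivAt.comp (0 : E) (h2.comp (0 : E) hVd)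
    have h4 : fderiv ℂ (fun z => X (f (v1 z T))) 0 = X.comp
        ((ContinuousLinearMap.id ℂ E).comp (NormedSpace.exp (((-T : ℝ) : ℂ) • A))) := h3.fderiv
    rw [h4]
    ext z
    exact exp_cancel A T z
  · refine ⟨fun z t => if t < T then h1 z t else h z (t - T),
      fun z t => if t ≤ T then v1 z t else v (v1 z T) (t - T), ?_, ?_, ?_⟩
    · -- Herglotz
      refine ⟨?_, ?_⟩
      · filter_upwards [ae_shift T hH.cara, hH1.cara] with t ht ht1 ht0
        by_cases htT : t < T
        · simp only [if_pos htT]
          exact ht1 ht0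
        · simp only [if_neg htT]
          exact ht (by linarith)
      · intro z hz
        obtain ⟨g, hg, hgz⟩ := hH.meas z hz
        obtain ⟨g1, hg1, hgz1⟩ := hH1.meas z hz
        refine ⟨fun t => if t < T then g1 t else g (t - T), ?_, ?_⟩
        · exact StronglyMeasurable.ite measurableSet_Iio hg1
            (hg.comp_measurable (measurable_id.sub_const T))
        · have h2 : ∀ᵐ s : ℝ, s ∈ Ici (0 : ℝ) → h z s = g s :=
            (ae_restrict_iff' measurableSet_Ici).1 hgz
          have h3 := ae_shift T h2
          have h4 : ∀ᵐ s : ℝ, s ∈ Ici (0 : ℝ) → h1 z s = g1 s :=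
            (ae_restrict_iff' measurableSet_Ici).1 hgz1
          refine (ae_restrict_iff' measurableSet_Ici).2 ?_
          filter_upwards [h3, h4] with t ht ht4 ht0
          by_cases htT : t < T
          · simp only [if_pos htT]
            exact ht4 ht0
          · simp only [if_neg htT]
            exact ht (by rw [mem_Ici]; linarith)
    · -- Loewner
      refine ⟨?_, ?_, ?_, ?_⟩
      · intro z hz t ht
        by_cases htT : t ≤ T
        · simp only [if_pos htT]
          exact hL1.mem z hz t ht
        · simp only [if_neg htT]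
          exact hL.mem _ (hVball z hz) _ (by linarith)
      · intro z hz
        simp only [if_pos hT]
        exact hL1.init z hz
      · intro z hz T0 hT0
        have h2 := BB.B5a E (v1 z) (v (v1 z T)) T (max T T0) hT
          (le_max_left _ _) (hL1.ac z hz T hT)
          (hL.ac _ (hVball z hz) _ (sub_nonneg.2 (le_max_left _ _)))
          (by rw [hL.init _ (hVball z hz)])
        refine h2.mono ?_
        rw [uIcc_of_le hT0, uIcc_of_le (hT.trans (le_max_left _ _))]
        exact Icc_subset_Icc_right (le_max_right _ _)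
      · intro z hz
        have h2 := ae_shift T (hL.ode _ (hVball z hz))
        have h3 : ∀ᵐ t : ℝ, t ≠ T := by
          have : ∀ᵐ t : ℝ, t ∉ ({T} : Set ℝ) := measure_eq_zero_iff_ae_notMem.1 (measure_singleton T)
          simpa using this
        filter_upwards [h2, h3, hL1.ode z hz] with t ht htT ht1 ht0
        rcases lt_or_gt_of_ne htT with hlt | hgt
        · simp only [if_pos hlt.le, if_pos hlt]
          refine (ht1 ht0).congr_of_eventuallyEq ?_
          filter_upwards [Iio_mem_nhds hlt] with s hs
          rw [if_pos (le_of_lt hs)]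
        · simp only [if_neg (not_le.2 hgt), if_neg (not_lt.2 hgt.le)]
          have h4 := ht (by linarith)
          have h5 : HasDerivAt (fun s : ℝ => v (v1 z T) (s - T))
              (-(h (v (v1 z T) (t - T)) (t - T))) t := by
            simpa using h4.comp_sub_const t T
          refine h5.congr_of_eventuallyEq ?_
          filter_upwards [Ioi_mem_nhds hgt] with s hs
          rw [if_neg (not_le.2 hs)]
    · -- the limit
      rw [Metric.tendstoLocallyUniformlyOn_iff] at hlim ⊢
      intro δ hδ x hx
      obtain ⟨s, hs, hev⟩ := hlim (δ / (‖X‖ + 1)) (by positivity) (v1 x T) (hVball x hx)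
      refine ⟨(fun z => v1 z T) ⁻¹' s, ?_, ?_⟩
      · have hc : Tendsto (fun z => v1 z T) (𝓝[ball 0 1] x) (𝓝[ball 0 1] (v1 x T)) :=
          tendsto_nhdsWithin_iff.2 ⟨(hVan x hx).continuousAt.continuousWithinAt,
            eventually_nhdsWithin_of_forall hVball⟩
        exact hc hs
      · have hsh : Tendsto (fun t : ℝ => t - T) atTop atTop := tendsto_atTop_add_const_right _ _ tendsto_id
        filter_upwards [hsh.eventually hev, eventually_gt_atTop T] with t ht htT y hy
        simp only [if_neg (not_le.2 htT)]
        have h2 := ht (v1 y T) hy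
        rw [exp_split A T t, ← hX, dist_eq_norm, ← map_sub]
        rw [dist_eq_norm] at h2
        refine (X.le_opNorm _).trans_lt ?_
        rw [lt_div_iff₀ (by positivity)] at h2
        have h3 := norm_nonneg (f (v1 y T) - (NormedSpace.exp (((t - T : ℝ) : ℂ) • A))
          (v (v1 y T) (t - T)))
        nlinarith [norm_nonneg X]

end Pool.Agent.helper29.GR
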