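import Pool.Agent.helper29.GR.Sharp

/-!
# The component in the slowest eigenspaces
-/

set_option autoImplicit false

namespace Pool.Agent.helper29.GR

open Metric MeasureTheory Set Filter Topology
open Pool.Agent.helper37.PR

section gen

variable {E : Type*} [NormedAddCommGroup E] [InnerProductSpace ℂ E] [CompleteSpace E]
variable {A : E →L[ℂ] E} {m k : ℝ}

theorem dual_W (hA : IsStarNormal A) {u : E}
    (hu : (A + ContinuousLinearMap.adjoint A) u = ((2 * m : ℝ) : ℂ) • u) (t : ℝ) :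
    (A + ContinuousLinearMap.adjoint A) (dual A u t) = ((2 * m : ℝ) : ℂ) • dual A u t := by
  have h1 : Commute (A + ContinuousLinearMap.adjoint A) (ContinuousLinearMap.adjoint A) := by
    have h2 : Commute A (ContinuousLinearMap.adjoint A) := by
      rw [← ContinuousLinearMap.star_eq_adjoint]
      exact hA.star_comm_self.symm
    exact h2.add_left (Commute.refl _)
  have h3 : Commute (A + ContinuousLinearMap.adjoint A)
      (NormedSpace.exp ((t : ℂ) • (ContinuousLinearMap.adjoint A))) := by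
    let _ : NormedAlgebra ℚ (E →L[ℂ] E) := NormedAlgebra.restrictScalars ℚ ℂ _
    exact (h1.smul_right _).exp_right
  have h4 := congrArg (fun L : E →L[ℂ] E => L u) h3.eq
  have h5 : (A + ContinuousLinearMap.adjoint A)
      ((NormedSpace.exp ((t : ℂ) • (ContinuousLinearMap.adjoint A))) u) =
      (NormedSpace.exp ((t : ℂ) • (ContinuousLinearMap.adjoint A)))
        ((A + ContinuousLinearMap.adjoint A) u) := h4
  rw [dual, h5, hu, map_smul]

theorem dual_norm_W (hA : IsStarNormal A) {u : E}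
    (hu : (A + ContinuousLinearMap.adjoint A) u = ((2 * m : ℝ) : ℂ) • u) (t : ℝ) :
    ‖dual A u t‖ = Real.exp (m * t) * ‖u‖ := by
  set g : ℝ → ℝ := fun s => Real.exp (-(2 * m) * s) * ‖dual A u s‖ ^ 2 with hg
  have hd : ∀ s, HasDerivAt g 0 s := by
    intro s
    have h1 := exp_hasDerivAt_real (-(2 * m)) s
    have h2 : HasDerivAt (fun s => ‖dual A u s‖ ^ 2)
        (2 * (inner ℂ (dual A u s) (ContinuousLinearMap.adjoint A (dual A u s))).re) s :=
      hasDerivAt_normSq (dual_hasDerivAt A u s)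
    have h3 := h1.mul h2
    have h4 : 2 * (inner ℂ (dual A u s) (ContinuousLinearMap.adjoint A (dual A u s))).re =
        2 * m * ‖dual A u s‖ ^ 2 := by
      have h5 := congrArg (fun y => (inner ℂ (dual A u s) y : ℂ).re) (dual_W hA hu s)
      simp only [add_apply, inner_add_right, Complex.add_re, reInner_adjoint, inner_smul_right,
        Complex.re_ofReal_mul, reInner_self] at h5
      rw [reInner_adjoint]
      linarith
    have h6 : Real.exp (-(2 * m) * s) * -(2 * m) * ‖dual A u s‖ ^ 2 + Real.exp (-(2 * m) * s) *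
        (2 * (inner ℂ (dual A u s) (ContinuousLinearMap.adjoint A (dual A u s))).re) = 0 := by
      rw [h4]; ring
    rw [h6] at h3
    exact h3
  have hconst : g t = g 0 :=
    is_const_of_deriv_eq_zero (fun s => (hd s).differentiableAt) (fun s => (hd s).deriv) t 0
  simp only [hg, dual_zero, mul_zero, Real.exp_zero, one_mul] at hconst
  have h1 : ‖dual A u t‖ ^ 2 = (Real.exp (m * t) * ‖u‖) ^ 2 := by
    have h2 : Real.exp (m * t) ^ 2 * Real.exp (-(2 * m) * t) = 1 := by
      rw [pow_two, ← Real.exp_add, ← Real.exp_add]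
      have : m * t + m * t + -(2 * m) * t = 0 := by ring
      rw [this, Real.exp_zero]
    calc ‖dual A u t‖ ^ 2 = (Real.exp (m * t) ^ 2 * Real.exp (-(2 * m) * t)) * ‖dual A u t‖ ^ 2 := by
          rw [h2, one_mul]
      _ = Real.exp (m * t) ^ 2 * (Real.exp (-(2 * m) * t) * ‖dual A u t‖ ^ 2) := by ring
      _ = (Real.exp (m * t) * ‖u‖) ^ 2 := by rw [hconst]; ring
  exact (pow_left_inj₀ (norm_nonneg _) (by positivity) two_ne_zero).1 h1

theorem comp_bound_W (hN : Num A m k) (hA : IsStarNormal A) {f : E → E} (hf : ParamRep A f) {z : E}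
    (hz : z ∈ ball (0 : E) 1) {u : E} (hu1 : ‖u‖ = 1)
    (hu : (A + ContinuousLinearMap.adjoint A) u = ((2 * m : ℝ) : ℂ) • u) :
    ‖(inner ℂ u (f z) : ℂ)‖ ≤ Kf ‖z‖ := by
  obtain ⟨h, v, hh, hv, hlim⟩ := param_limit hf
  have hlim1 : Tendsto (fun t : ℝ => ‖(inner ℂ u ((NormedSpace.exp ((t : ℂ) • A)) (v z t)) : ℂ)‖)
      atTop (𝓝 ‖(inner ℂ u (f z) : ℂ)‖) :=
    (((innerSL ℂ u).continuous.tendsto (f z)).comp (hlim z hz)).norm
  apply le_of_tendsto hlim1
  filter_upwards [eventually_ge_atTop (0 : ℝ)] with T hT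
  rw [← dual_inner]
  have h1 := flow_koebe hN hh hv hz hT
  refine le_trans ?_ h1
  have h2 := norm_inner_le_norm (𝕜 := ℂ) (dual A u T) (v z T)
  rw [dual_norm_W hA hu, hu1, mul_one] at h2
  refine h2.trans (mul_le_mul_of_nonneg_left ?_ (Real.exp_pos _).le)
  have hx1 : ‖v z T‖ < 1 := by
    have := hv.mem z hz _ hT
    simpa using this
  exact le_Kf (norm_nonneg _) hx1

theorem proj_bound (hN : Num A m k) (hA : IsStarNormal A) {f : E → E} (hf : ParamRep A f) {z : E}
    (hz : z ∈ ball (0 : E) 1) (W : Submodule ℂ E) [W.HasOrthogonalProjection]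
    (hW : ∀ u ∈ W, (A + ContinuousLinearMap.adjoint A) u = ((2 * m : ℝ) : ℂ) • u) :
    ‖W.starProjection (f z)‖ ≤ Kf ‖z‖ := by
  set y : E := f z with hy
  set p : E := W.starProjection y with hp
  have hpW : p ∈ W := W.starProjection_apply_mem y
  by_cases h0 : p = 0
  · rw [h0, norm_zero]
    exact Kf_nonneg (norm_nonneg _)
  have hpn : 0 < ‖p‖ := norm_pos_iff.2 h0
  set u : E := (((‖p‖⁻¹ : ℝ)) : ℂ) • p with hu
  have hu1 : ‖u‖ = 1 := by
    rw [hu, norm_smul, Complex.norm_real, norm_inv, norm_norm, inv_mul_cancel₀ hpn.ne']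
  have huW : u ∈ W := W.smul_mem _ hpW
  have h1 := comp_bound_W hN hA hf hz hu1 (hW u huW)
  have h2 : (inner ℂ u (f z) : ℂ) = ((‖p‖ : ℝ) : ℂ) := by
    have h3 : (inner ℂ p y : ℂ) = inner ℂ p p := by
      rw [← sub_eq_zero, ← inner_sub_right, ← inner_conj_symm, hp,
        W.starProjection_inner_eq_zero y _ hpW, map_zero]
    rw [hu, ← hy, inner_smul_left, h3, inner_self_eq_norm_sq_to_K, Complex.conj_ofReal]
    have h4 : ((‖p‖ : ℝ) : ℂ) ≠ 0 := by exact_mod_cast hpn.ne'
    push_cast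
    field_simp
    rfl
  rw [h2, Complex.norm_real, norm_norm] at h1
  exact h1

end gen

/-- the sum of the eigenspaces of the eigenvalues of real part `m(A)` -/
noncomputable def Wm {E : Type} [NormedAddCommGroup E] [InnerProductSpace ℂ E] (A : E →L[ℂ] E) :
    Submodule ℂ E := ⨆ (l : ℂ) (_ : l.re = mNum A), Module.End.eigenspace (A : E →ₗ[ℂ] E) l

variable {E : Type} [NormedAddCommGroup E] [InnerProductSpace ℂ E] [FiniteDimensional ℂ E]
variable {A : E →L[ℂ] E}

theorem Wm_mem (hA : IsStarNormal A) {u : E} (hu : u ∈ Wm A) :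
    (A + ContinuousLinearMap.adjoint A) u = ((2 * mNum A : ℝ) : ℂ) • u := by
  have h1 : Wm A ≤ LinearMap.ker ((A + ContinuousLinearMap.adjoint A -
      ((2 * mNum A : ℝ) : ℂ) • ContinuousLinearMap.id ℂ E : E →L[ℂ] E) : E →ₗ[ℂ] E) := by
    refine iSup_le fun l => iSup_le fun hl => ?_
    intro x hx
    have hx1 : A x = l • x := by
      have := Module.End.mem_eigenspace_iff.1 hx
      exact this
    have hx2 := adjoint_eig hA hx1
    simp only [LinearMap.mem_ker, ContinuousLinearMap.coe_coe, sub_apply, add_apply, smul_apply,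
      ContinuousLinearMap.id_apply]
    rw [hx1, hx2, ← add_smul, Complex.add_conj, hl, sub_self]
  have h2 := h1 hu
  simp only [LinearMap.mem_ker, ContinuousLinearMap.coe_coe, sub_apply, smul_apply,
    ContinuousLinearMap.id_apply, sub_eq_zero] at h2
  exact h2

omit [FiniteDimensional ℂ E] in
theorem mem_Wm {e : E} {l : ℂ} (hl : l.re = mNum A) (he : A e = l • e) : e ∈ Wm A := by
  have h1 : e ∈ Module.End.eigenspace (A : E →ₗ[ℂ] E) l := Module.End.mem_eigenspace_iff.2 he
  exact (le_iSup_of_le l (le_iSup_of_le hl le_rfl) :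
    Module.End.eigenspace (A : E →ₗ[ℂ] E) l ≤ Wm A) h1

/-- the sharp growth of the component in the slowest eigenspaces -/
theorem proj_sharp (hfr : 2 ≤ Module.finrank ℂ E) (hA : IsStarNormal A) (h0 : 0 < mNum A)
    {r : ℝ} (hr : 0 < r) (hr1 : r < 1) :
    IsGreatest {x : ℝ | ∃ f : E → E, ParamRep A f ∧ ∃ z : E, ‖z‖ = r ∧
      x = ‖(Wm A).starProjection (f z)‖} (r / (1 - r) ^ 2) := by
  obtain ⟨hN, e₁, e₂, l₁, l₂, hF⟩ := exists_frame hA hfr h0
  have hD : Dir A (mNum A) e₂ l₂ := ⟨hF.n2, hF.eig2, hF.adj2, hF.re2⟩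
  constructor
  · refine ⟨FK A (mNum A) e₂, FK_paramRep hN hA hD, (r : ℂ) • e₂, ?_, ?_⟩
    · rw [norm_smul, hD.n, Complex.norm_real, Real.norm_eq_abs, abs_of_pos hr, mul_one]
    · rw [FK_axis hN.pos hD hr1, map_smul,
        Submodule.starProjection_eq_self_iff.2 (mem_Wm hF.re2 hF.eig2), norm_smul, hD.n,
        Complex.norm_real, Real.norm_eq_abs, abs_of_pos (Kf_pos hr hr1), mul_one]
      rfl
  · rintro x ⟨f, hf, z, hz, rfl⟩
    have h1 := proj_bound hN hA hf (z := z) (by rw [mem_ball_zero_iff, hz]; exact hr1) (Wm A)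
      (fun u hu => Wm_mem hA hu)
    rw [hz] at h1
    exact h1

end Pool.Agent.helper29.GR
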