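import Pool.Agent.helper29.GR.Late

/-!
# Growth of maps with `A`-parametric representation: the upper and the lower bound
-/

set_option autoImplicit false

namespace Pool.Agent.helper29.GR

open Metric MeasureTheory Set Filter Topology
open Pool.Agent.helper37.PR
open scoped NNReal

variable {E : Type*} [NormedAddCommGroup E] [InnerProductSpace ℂ E] [CompleteSpace E]
variable {A : E →L[ℂ] E} {m k : ℝ} {h v : E → ℝ → E}

theorem param_limit {f : E → E} (hf : ParamRep A f) : ∃ h v : E → ℝ → E, IsHerglotz A h ∧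
    IsLoewner h v ∧ ∀ z ∈ ball (0 : E) 1,
      Tendsto (fun t : ℝ => (NormedSpace.exp ((t : ℂ) • A)) (v z t)) atTop (𝓝 (f z)) := by
  obtain ⟨-, -, -, h, v, hh, hv, hlim⟩ := hf
  exact ⟨h, v, hh, hv, fun z hz => hlim.tendsto_at hz⟩

/-- the time when the Koebe bound reaches `ρ` -/
theorem time_bound (hN : Num A m k) (hh : IsHerglotz A h) (hv : IsLoewner h v) {z : E}
    (hz : z ∈ ball (0 : E) 1) {ρ : ℝ} (hρ : 0 < ρ) (hρz : ρ ≤ ‖z‖) :
    0 ≤ 1 / m * Real.log (Kf ‖z‖ / Kf ρ) ∧ ‖v z (1 / m * Real.log (Kf ‖z‖ / Kf ρ))‖ ≤ ρ := by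
  have hz1 : ‖z‖ < 1 := by simpa using hz
  have hm := hN.pos
  have h1 : 0 < Kf ρ := Kf_pos hρ (by linarith)
  have h2 : Kf ρ ≤ Kf ‖z‖ := Kf_mono hρ.le hρz hz1
  have h3 : 1 ≤ Kf ‖z‖ / Kf ρ := by rw [le_div_iff₀ h1]; linarith
  have h4 : 0 ≤ 1 / m * Real.log (Kf ‖z‖ / Kf ρ) :=
    mul_nonneg (by positivity) (Real.log_nonneg h3)
  refine ⟨h4, ?_⟩
  have h5 := flow_koebe hN hh hv hz h4
  have h6 : m * (1 / m * Real.log (Kf ‖z‖ / Kf ρ)) = Real.log (Kf ‖z‖ / Kf ρ) := by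
    field_simp
  rw [h6, Real.exp_log (by linarith)] at h5
  set x := ‖v z (1 / m * Real.log (Kf ‖z‖ / Kf ρ))‖ with hx
  have hx1 : x < 1 := by
    have h8 := hv.mem z hz _ h4
    rw [mem_ball_zero_iff] at h8
    exact h8
  apply Kf_le_iff hρ.le hx1
  have h7 : 0 < Kf ‖z‖ := lt_of_lt_of_le h1 h2
  rw [div_mul_eq_mul_div, div_le_iff₀ h1] at h5
  exact le_of_mul_le_mul_left h5 h7

/-- the constant of the upper bound -/
noncomputable def CU (A : E →L[ℂ] E) (m k : ℝ) : ℝ :=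
  (1 + CL A m k) * (1 + (Kf (rho0 m k)) ^ (-(k / m)) / rho0 m k)

theorem growth_upper (hN : Num A m k) (hk0 : 0 ≤ k) (hk : k < 2 * m) {f : E → E}
    (hf : ParamRep A f) {z : E} (hz : z ∈ ball (0 : E) 1) :
    ‖f z‖ ≤ CU A m k * (‖z‖ * (1 - ‖z‖) ^ (-(2 * k / m))) := by
  obtain ⟨h, v, hh, hv, hlim⟩ := param_limit hf
  have hz1 : ‖z‖ < 1 := by simpa using hz
  have hz0 := norm_nonneg z
  have hm := hN.pos
  have hρ := rho0_pos hm hk
  have hρ1 := rho0_le (m := m) (k := k)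
  have hC := CL_nonneg A hk
  have hKρ : 0 < Kf (rho0 m k) := Kf_pos hρ (by linarith)
  have hpow : 1 ≤ (1 - ‖z‖) ^ (-(2 * k / m)) := by
    apply Real.one_le_rpow_of_pos_of_le_one_of_nonpos (by linarith) (by linarith)
    have : 0 ≤ 2 * k / m := by positivity
    linarith
  have hKp : 0 < (Kf (rho0 m k)) ^ (-(k / m)) := Real.rpow_pos_of_pos hKρ _
  have hlim1 := (hlim z hz).norm
  apply le_of_tendsto hlim1
  by_cases hr : ‖z‖ ≤ rho0 m k
  · filter_upwards [eventually_ge_atTop (0 : ℝ)] with T hT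
    have h1 := (split_bounds hN hk hh hv hz le_rfl hT (by rw [hv.init z hz]; exact hr)).1
    rw [hv.init z hz, mul_zero, Real.exp_zero, mul_one] at h1
    have h2 : ‖z‖ + CL A m k * ‖z‖ ^ 2 ≤ (1 + CL A m k) * ‖z‖ := by
      have : CL A m k * ‖z‖ ^ 2 ≤ CL A m k * ‖z‖ := by
        apply mul_le_mul_of_nonneg_left _ hC
        nlinarith
      linarith
    refine h1.trans (h2.trans ?_)
    rw [CU, mul_assoc]
    apply mul_le_mul_of_nonneg_left _ (by linarith)
    have h3 : ‖z‖ ≤ ‖z‖ * (1 - ‖z‖) ^ (-(2 * k / m)) := le_mul_of_one_le_right hz0 hpow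
    have h4 : 0 ≤ (Kf (rho0 m k)) ^ (-(k / m)) / rho0 m k := by positivity
    refine h3.trans ?_
    apply le_mul_of_one_le_left (by positivity)
    linarith
  · push Not at hr
    obtain ⟨hS, hvS⟩ := time_bound hN hh hv hz hρ hr.le
    set S := 1 / m * Real.log (Kf ‖z‖ / Kf (rho0 m k)) with hSdef
    filter_upwards [eventually_ge_atTop S] with T hT
    have h1 := (split_bounds hN hk hh hv hz hS hT hvS).1
    have h2 : ‖v z S‖ + CL A m k * ‖v z S‖ ^ 2 ≤ 1 + CL A m k := by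
      have h3 := norm_nonneg (v z S)
      have : CL A m k * ‖v z S‖ ^ 2 ≤ CL A m k * 1 := by
        apply mul_le_mul_of_nonneg_left _ hC
        nlinarith
      linarith
    have hKz : 0 < Kf ‖z‖ := Kf_pos (by linarith) hz1
    have h3 : Real.exp (k * S) = (Kf ‖z‖ / Kf (rho0 m k)) ^ (k / m) := by
      rw [Real.rpow_def_of_pos (by positivity), hSdef]
      congr 1
      ring
    have h4 : (Kf ‖z‖ / Kf (rho0 m k)) ^ (k / m) ≤
        (Kf (rho0 m k)) ^ (-(k / m)) / rho0 m k * (‖z‖ * (1 - ‖z‖) ^ (-(2 * k / m))) := by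
      rw [Real.div_rpow hKz.le hKρ.le, Real.rpow_neg hKρ.le, Kf,
        Real.div_rpow (by linarith) (by positivity)]
      have e1 : ((1 - ‖z‖) ^ 2) ^ (k / m) = (1 - ‖z‖) ^ (2 * k / m) := by
        rw [← Real.rpow_natCast, ← Real.rpow_mul (by linarith)]
        congr 1
        push_cast
        ring
      rw [e1, Real.rpow_neg (by linarith)]
      have e2 : ‖z‖ ^ (k / m) ≤ ‖z‖ / rho0 m k := by
        have : ‖z‖ ^ (k / m) ≤ 1 := Real.rpow_le_one hz0 hz1.le (by positivity)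
        refine this.trans ?_
        rw [le_div_iff₀ hρ]; linarith
      have e3 : 0 < (1 - ‖z‖) ^ (2 * k / m) := Real.rpow_pos_of_pos (by linarith) _
      have e4 : 0 < (Kf (rho0 m k)) ^ (k / m) := Real.rpow_pos_of_pos hKρ _
      calc ‖z‖ ^ (k / m) / (1 - ‖z‖) ^ (2 * k / m) / (Kf (rho0 m k)) ^ (k / m) ≤
            (‖z‖ / rho0 m k) / (1 - ‖z‖) ^ (2 * k / m) / (Kf (rho0 m k)) ^ (k / m) := by
            gcongr
        _ = _ := by field_simp
    have h5 : 0 ≤ ‖z‖ * (1 - ‖z‖) ^ (-(2 * k / m)) := by positivity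
    calc ‖(NormedSpace.exp ((T : ℂ) • A)) (v z T)‖
        ≤ (‖v z S‖ + CL A m k * ‖v z S‖ ^ 2) * Real.exp (k * S) := h1
      _ ≤ (1 + CL A m k) * ((Kf (rho0 m k)) ^ (-(k / m)) / rho0 m k *
          (‖z‖ * (1 - ‖z‖) ^ (-(2 * k / m)))) := by
          rw [h3]
          apply mul_le_mul h2 h4 (by positivity) (by linarith)
      _ ≤ CU A m k * (‖z‖ * (1 - ‖z‖) ^ (-(2 * k / m))) := by
          rw [CU, mul_assoc]
          apply mul_le_mul_of_nonneg_left _ (by linarith)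
          apply mul_le_mul_of_nonneg_right _ h5
          linarith

/-- the radius of the lower bound -/
noncomputable def rho1 (A : E →L[ℂ] E) (m k : ℝ) : ℝ := min (rho0 m k) (1 / (2 * (CL A m k + 1)))

omit [CompleteSpace E] in
theorem rho1_pos (A : E →L[ℂ] E) (hm : 0 < m) (hk : k < 2 * m) : 0 < rho1 A m k := by
  rw [rho1]
  apply lt_min (rho0_pos hm hk)
  have := CL_nonneg A hk
  positivity

omit [CompleteSpace E] in
theorem rho1_CL (A : E →L[ℂ] E) (hm : 0 < m) (hk : k < 2 * m) : CL A m k * rho1 A m k ≤ 1 / 2 := by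
  have h1 := CL_nonneg A hk
  have h2 : rho1 A m k ≤ 1 / (2 * (CL A m k + 1)) := min_le_right _ _
  have h3 := rho1_pos A hm hk
  rw [le_div_iff₀ (by positivity)] at h2
  nlinarith

theorem growth_lower (hN : Num A m k) (hk : k < 2 * m) {f : E → E}
    (hf : ParamRep A f) {z : E} (hz : z ∈ ball (0 : E) 1) :
    rho1 A m k / 2 * ‖z‖ ≤ ‖f z‖ := by
  obtain ⟨h, v, hh, hv, hlim⟩ := param_limit hf
  have hz1 : ‖z‖ < 1 := by simpa using hz
  have hz0 := norm_nonneg z
  have hm := hN.pos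
  have hρ := rho1_pos A hm hk
  have hρ0 : rho1 A m k ≤ rho0 m k := min_le_left _ _
  have hρ1 := rho0_le (m := m) (k := k)
  have hC := CL_nonneg A hk
  have hCρ := rho1_CL A hm hk
  have hlim1 := (hlim z hz).norm
  apply ge_of_tendsto hlim1
  by_cases hr : ‖z‖ ≤ rho1 A m k
  · filter_upwards [eventually_ge_atTop (0 : ℝ)] with T hT
    have h1 := (split_bounds hN hk hh hv hz le_rfl hT
      (by rw [hv.init z hz]; exact hr.trans hρ0)).2
    rw [hv.init z hz] at h1
    have h2 : CL A m k * ‖z‖ ^ 2 ≤ 1 / 2 * ‖z‖ := by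
      have : CL A m k * ‖z‖ ≤ 1 / 2 := (mul_le_mul_of_nonneg_left hr hC).trans hCρ
      nlinarith
    have h3 : rho1 A m k / 2 * ‖z‖ ≤ 1 / 2 * ‖z‖ := by
      apply mul_le_mul_of_nonneg_right _ hz0
      linarith
    linarith
  · push Not at hr
    obtain ⟨hS, hvS⟩ := time_bound hN hh hv hz hρ hr.le
    set S1 := 1 / m * Real.log (Kf ‖z‖ / Kf (rho1 A m k)) with hSdef
    have hcont : ContinuousOn (fun t => ‖v z t‖) (Icc 0 S1) := by
      have := (hv.ac z hz S1 hS).continuousOn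
      rw [uIcc_of_le hS] at this
      exact this.norm
    obtain ⟨S, hSmem, hSv⟩ := intermediate_value_Icc' hS hcont
      (show rho1 A m k ∈ Icc ‖v z S1‖ ‖v z 0‖ from ⟨hvS, by rw [hv.init z hz]; exact hr.le⟩)
    have hSv' : ‖v z S‖ = rho1 A m k := hSv
    filter_upwards [eventually_ge_atTop S] with T hT
    have h1 := (split_bounds hN hk hh hv hz hSmem.1 hT (by rw [hSv']; exact hρ0)).2
    rw [hSv'] at h1
    refine le_trans ?_ h1
    nlinarith

/-- the component in the direction of an eigenvector with minimal real part -/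
theorem comp_bound (hN : Num A m k) {f : E → E} (hf : ParamRep A f) {z : E}
    (hz : z ∈ ball (0 : E) 1) {e : E} (he : ‖e‖ = 1) {l : ℂ} (hl : l.re = m)
    (hadj : ContinuousLinearMap.adjoint A e = (starRingEnd ℂ) l • e) :
    ‖(inner ℂ e (f z) : ℂ)‖ ≤ Kf ‖z‖ := by
  obtain ⟨h, v, hh, hv, hlim⟩ := param_limit hf
  have hz1 : ‖z‖ < 1 := by simpa using hz
  have hlim1 : Tendsto (fun t : ℝ => ‖(inner ℂ e ((NormedSpace.exp ((t : ℂ) • A)) (v z t)) : ℂ)‖)
      atTop (𝓝 ‖(inner ℂ e (f z) : ℂ)‖) :=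
    (((innerSL ℂ e).continuous.tendsto (f z)).comp (hlim z hz)).norm
  apply le_of_tendsto hlim1
  filter_upwards [eventually_ge_atTop (0 : ℝ)] with T hT
  rw [← dual_inner, dual, exp_eigen _ hadj, inner_smul_left, norm_mul, Complex.norm_conj,
    Complex.norm_exp, Complex.re_ofReal_mul, Complex.conj_re, hl, mul_comm T m]
  have h1 := flow_koebe hN hh hv hz hT
  refine le_trans ?_ h1
  apply mul_le_mul_of_nonneg_left _ (Real.exp_pos _).le
  have hx1 : ‖v z T‖ < 1 := by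
    have := hv.mem z hz _ hT
    simpa using this
  have h2 := norm_inner_le_norm (𝕜 := ℂ) e (v z T)
  rw [he, one_mul] at h2
  exact h2.trans (le_Kf (norm_nonneg _) hx1)

end Pool.Agent.helper29.GR
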