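import Pool.Agent.helper71.BB.A1
import Pool.Agent.helper21.BB.A2
import Pool.Agent.helper78.BB.A3
import Pool.Agent.helper46.BB.A4

/-!
# The one dimensional Koebe flow: the exponent
-/

set_option autoImplicit false

namespace Pool.Agent.helper29.GR

open Metric Set Filter Topology

/-- the exponent -/
noncomputable def cc (m : ℝ) (w : ℂ) (t : ℝ) : ℂ :=
  ((2 / m : ℝ) : ℂ) * (Complex.log (1 - BB.psi (Real.exp (-(m * t))) w) - Complex.log (1 - w))

/-- the limit of the exponent -/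
noncomputable def cinf (m : ℝ) (w : ℂ) : ℂ := -(((2 / m : ℝ) : ℂ) * Complex.log (1 - w))

theorem slit_of_norm {w : ℂ} (hw : ‖w‖ < 1) : 1 - w ∈ Complex.slitPlane := by
  left
  rw [Complex.sub_re, Complex.one_re]
  have := Complex.re_le_norm w
  linarith

theorem one_add_ne {w : ℂ} (hw : ‖w‖ < 1) : 1 + w ≠ 0 := by
  intro h
  have h1 : w = -1 := by linear_combination h
  rw [h1, norm_neg, norm_one] at hw
  exact lt_irrefl _ hw

theorem one_sub_ne {w : ℂ} (hw : ‖w‖ < 1) : 1 - w ≠ 0 := by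
  intro h
  have h1 : w = 1 := by linear_combination -h
  rw [h1, norm_one] at hw
  exact lt_irrefl _ hw

theorem exp_le_one' {m t : ℝ} (hm : 0 < m) (ht : 0 ≤ t) : Real.exp (-(m * t)) ≤ 1 := by
  rw [Real.exp_le_one_iff]
  have : 0 ≤ m * t := by positivity
  linarith

theorem psi_norm {m t : ℝ} (hm : 0 < m) (ht : 0 ≤ t) {w : ℂ} (hw : ‖w‖ < 1) :
    ‖BB.psi (Real.exp (-(m * t))) w‖ < 1 :=
  (BB.A2 BB.A1 _ w (Real.exp_pos _) (exp_le_one' hm ht) hw).1

theorem psi_hasDerivAt {m t : ℝ} (hm : 0 < m) (ht : 0 ≤ t) {w : ℂ} (hw : ‖w‖ < 1) :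
    HasDerivAt (fun t : ℝ => BB.psi (Real.exp (-(m * t))) w)
      (-(m * (BB.psi (Real.exp (-(m * t))) w * BB.pp (BB.psi (Real.exp (-(m * t))) w)))) t := by
  have h1 := (BB.A3 BB.A1 w (m * t) hw (by positivity)).2.1
  have h2 : HasDerivAt (fun t : ℝ => m * t) m t := by
    have := (hasDerivAt_id t).const_mul m
    simpa using this
  have h3 := h1.scomp t h2
  refine HasDerivAt.congr_deriv (f' := _) h3 ?_
  rw [Complex.real_smul]
  ring

theorem cc_hasDerivAt {m t : ℝ} (hm : 0 < m) (ht : 0 ≤ t) {w : ℂ} (hw : ‖w‖ < 1) :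
    HasDerivAt (cc m w) (2 * BB.psi (Real.exp (-(m * t))) w /
      (1 + BB.psi (Real.exp (-(m * t))) w)) t := by
  have h0 := psi_norm hm ht hw
  have h1 := (psi_hasDerivAt hm ht hw).const_sub 1
  have h2 : HasDerivAt Complex.log (1 - BB.psi (Real.exp (-(m * t))) w)⁻¹
      (1 - BB.psi (Real.exp (-(m * t))) w) := Complex.hasDerivAt_log (slit_of_norm h0)
  have h3 := h2.comp t h1
  have h4 := (h3.sub_const (Complex.log (1 - w))).const_mul (((2 / m : ℝ) : ℂ))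
  refine HasDerivAt.congr_deriv (f' := _) h4 ?_
  have h5 := one_add_ne h0
  have h6 := one_sub_ne h0
  have h7 : (m : ℂ) ≠ 0 := by exact_mod_cast hm.ne'
  rw [BB.pp]
  push_cast
  field_simp

theorem cc_exp {m t : ℝ} (hm : 0 < m) (ht : 0 ≤ t) {w : ℂ} (hw : ‖w‖ < 1) :
    Complex.exp (-((m * t : ℝ) : ℂ)) * (Complex.exp (cc m w t * m) * w) =
      BB.psi (Real.exp (-(m * t))) w := by
  have h0 := psi_norm hm ht hw
  obtain ⟨-, -, h1, -⟩ := BB.A2 BB.A1 (Real.exp (-(m * t))) w (Real.exp_pos _) (exp_le_one' hm ht) hw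
  set p := BB.psi (Real.exp (-(m * t))) w with hp
  have h7 : (m : ℂ) ≠ 0 := by exact_mod_cast hm.ne'
  have h2 : cc m w t * m = 2 * Complex.log (1 - p) - 2 * Complex.log (1 - w) := by
    rw [cc, ← hp]
    push_cast
    field_simp
  have h3 : Complex.exp (cc m w t * m) = ((1 - p) / (1 - w)) ^ 2 := by
    rw [h2, Complex.exp_sub, two_mul, two_mul, Complex.exp_add, Complex.exp_add,
      Complex.exp_log (one_sub_ne h0), Complex.exp_log (one_sub_ne hw), div_pow, pow_two, pow_two]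
  have h4 : Complex.exp (-((m * t : ℝ) : ℂ)) = ((Real.exp (-(m * t)) : ℝ) : ℂ) := by
    rw [Complex.ofReal_exp, Complex.ofReal_neg]
  rw [h3, h4, ← mul_assoc]
  exact h1

theorem cc_zero {m : ℝ} {w : ℂ} (hw : ‖w‖ < 1) : cc m w 0 = 0 := by
  obtain ⟨-, -, -, -, -, -, -, -, -, -, h1, -⟩ := BB.A2 BB.A1 1 w one_pos le_rfl hw
  rw [cc, mul_zero, neg_zero, Real.exp_zero, h1, sub_self, mul_zero]

theorem cc_at_zero {m t : ℝ} (hm : 0 < m) (ht : 0 ≤ t) : cc m 0 t = 0 := by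
  obtain ⟨-, -, -, -, -, -, h1, -⟩ := BB.A2 BB.A1 (Real.exp (-(m * t))) 0 (Real.exp_pos _)
    (exp_le_one' hm ht) (by simp)
  rw [cc, h1]
  simp

theorem cc_analytic {m t : ℝ} (hm : 0 < m) (ht : 0 ≤ t) {w : ℂ} (hw : ‖w‖ < 1) :
    AnalyticAt ℂ (fun w => cc m w t) w := by
  have h0 := psi_norm hm ht hw
  have h1 : AnalyticAt ℂ (BB.psi (Real.exp (-(m * t)))) w :=
    (BB.A4 BB.A1 _ (Real.exp_pos _) (exp_le_one' hm ht)).2.2.1 w (by simpa using hw)
  have h2 : AnalyticAt ℂ (fun w => Complex.log (1 - BB.psi (Real.exp (-(m * t))) w)) w :=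
    (analyticAt_const.sub h1).clog (slit_of_norm h0)
  have h3 : AnalyticAt ℂ (fun w : ℂ => Complex.log (1 - w)) w :=
    (analyticAt_const.sub analyticAt_id).clog (slit_of_norm hw)
  exact analyticAt_const.mul (h2.sub h3)

theorem cinf_analytic {m : ℝ} {w : ℂ} (hw : ‖w‖ < 1) : AnalyticAt ℂ (cinf m) w := by
  have h3 : AnalyticAt ℂ (fun w : ℂ => Complex.log (1 - w)) w :=
    (analyticAt_const.sub analyticAt_id).clog (slit_of_norm hw)
  exact (analyticAt_const.mul h3).neg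

/-- continuity of the one dimensional flow, up to infinite time -/
theorem psi_tendsto {w0 : ℂ} (hw : ‖w0‖ < 1) :
    Tendsto (fun p : ℝ × ℂ => BB.psi p.1 p.2) (𝓝 (0, w0)) (𝓝 0) := by
  have h1 : ContinuousAt (fun p : ℝ × ℂ => BB.Sg p.2) (0, w0) := by
    unfold BB.Sg
    exact ContinuousAt.div (by fun_prop) (by fun_prop) (one_sub_ne hw)
  have h2 : ContinuousAt (fun p : ℝ × ℂ => BB.Bs p.1 p.2) (0, w0) := by
    unfold BB.Bs
    have h3 : ContinuousAt (fun p : ℝ × ℂ => ((p.1 : ℝ) : ℂ)) (0, w0) := by fun_prop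
    exact continuousAt_const.add (h3.mul ((h1.pow 2).sub continuousAt_const))
  have h3 : BB.Bs 0 w0 = 1 := by simp [BB.Bs]
  have h4 : ContinuousAt (fun p : ℝ × ℂ => BB.Qf p.1 p.2) (0, w0) := by
    unfold BB.Qf
    apply ContinuousAt.cpow h2 continuousAt_const
    show BB.Bs 0 w0 ∈ Complex.slitPlane
    rw [h3]
    exact Complex.one_mem_slitPlane
  have h5 : BB.Qf 0 w0 = 1 := by
    unfold BB.Qf
    rw [h3, Complex.one_cpow]
  have h6 : ContinuousAt (fun p : ℝ × ℂ => BB.psi p.1 p.2) (0, w0) := by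
    unfold BB.psi
    apply ContinuousAt.div ((h4.pow 2).sub continuousAt_const) ((h4.pow 2).add continuousAt_const)
    show BB.Qf 0 w0 ^ 2 + 1 ≠ 0
    rw [h5]
    norm_num
  have h7 : BB.psi 0 w0 = 0 := by
    unfold BB.psi
    rw [h5]
    norm_num
  have h8 := h6.tendsto
  rw [h7] at h8
  exact h8

theorem psi_tendsto' {w0 : ℂ} (hw : ‖w0‖ < 1) {ι : Type*} {l : Filter ι}
    {T : ι → ℝ} {W : ι → ℂ} (h1 : Tendsto (fun i => (T i, W i)) l (𝓝 (0, w0))) :
    Tendsto (fun i => BB.psi (T i) (W i)) l (𝓝 0) := by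
  have h2 := psi_tendsto hw
  have h3 := h2.comp h1
  exact h3

theorem cc_tendsto {m : ℝ} (hm : 0 < m) {w0 : ℂ} (hw : ‖w0‖ < 1) {ι : Type*} {l : Filter ι}
    {T : ι → ℝ} {W : ι → ℂ} (hT : Tendsto T l atTop) (hW : Tendsto W l (𝓝 w0)) :
    Tendsto (fun i => cc m (W i) (T i)) l (𝓝 (cinf m w0)) := by
  have h1 : Tendsto (fun i => Real.exp (-(m * T i))) l (𝓝 0) :=
    Real.tendsto_exp_neg_atTop_nhds_zero.comp (hT.const_mul_atTop hm)
  have h2 := psi_tendsto' hw (h1.prodMk_nhds hW)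
  have h3 := (tendsto_const_nhds (x := (1 : ℂ))).sub h2
  have h3' := h3.clog (slit_of_norm (by simp))
  have h4 := ((tendsto_const_nhds (x := (1 : ℂ))).sub hW).clog (slit_of_norm hw)
  have h5 := (h3'.sub h4).const_mul (((2 / m : ℝ) : ℂ))
  have h6 : ((2 / m : ℝ) : ℂ) * (Complex.log (1 - 0) - Complex.log (1 - w0)) = cinf m w0 := by
    rw [cinf, sub_zero, Complex.log_one]; ring
  rw [h6] at h5
  exact h5

end Pool.Agent.helper29.GR
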