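import Pool.Agent.helper29.GR.Comp
import Pool.Agent.helper29.GR.Koebe1
import Pool.Agent.helper37.PR.Normal

/-!
# The Koebe flow of a normal operator
-/

set_option autoImplicit false

namespace Pool.Agent.helper29.GR

open Metric MeasureTheory Set Filter Topology
open Pool.Agent.helper37.PR

variable {E : Type*} [NormedAddCommGroup E] [InnerProductSpace ℂ E] [CompleteSpace E]
variable {A : E →L[ℂ] E} {m k : ℝ}

/-- the real part of `A` -/
noncomputable def Hop (A : E →L[ℂ] E) : E →L[ℂ] E :=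
  (1 / 2 : ℂ) • (A + ContinuousLinearMap.adjoint A)

theorem Hop_comm (hA : IsStarNormal A) : Commute A (Hop A) := by
  have h1 : Commute A (ContinuousLinearMap.adjoint A) := by
    rw [← ContinuousLinearMap.star_eq_adjoint]
    exact hA.star_comm_self.symm
  exact ((Commute.refl A).add_right h1).smul_right _

theorem Hop_adjoint (A : E →L[ℂ] E) : ContinuousLinearMap.adjoint (Hop A) = Hop A := by
  rw [Hop, ← ContinuousLinearMap.star_eq_adjoint, ← ContinuousLinearMap.star_eq_adjoint, star_smul,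
    star_add, star_star, add_comm]
  congr 1
  simp

theorem Hop_inner (A : E →L[ℂ] E) (x : E) :
    (inner ℂ x (Hop A x) : ℂ) = (((inner ℂ x (A x)).re : ℝ) : ℂ) := by
  rw [Hop, smul_apply, add_apply, inner_smul_right, inner_add_right,
    ContinuousLinearMap.adjoint_inner_right, ← inner_conj_symm (A x) x]
  have h1 := Complex.add_conj (inner ℂ x (A x))
  rw [h1]
  push_cast
  ring

theorem Hop_eig {e : E} {l : ℂ} (hl : l.re = m) (h1 : A e = l • e)
    (h2 : ContinuousLinearMap.adjoint A e = (starRingEnd ℂ) l • e) : Hop A e = (m : ℂ) • e := by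
  rw [Hop, smul_apply, add_apply, h1, h2, ← add_smul, smul_smul, Complex.add_conj, hl]
  congr 1
  push_cast
  ring

/-- the exponential of a complex multiple -/
theorem exp_cx_hasDerivAt (B : E →L[ℂ] E) {c : ℝ → ℂ} {c' : ℂ} {t : ℝ} (hc : HasDerivAt c c' t) :
    HasDerivAt (fun t => NormedSpace.exp (c t • B)) (c' • (B * NormedSpace.exp (c t • B))) t := by
  have h1 := hasDerivAt_exp_smul_const' (𝕂 := ℂ) B (c t)
  exact h1.scomp t hc

theorem inner_exp (B : E →L[ℂ] E) {e : E} {l : ℂ}
    (hB : ContinuousLinearMap.adjoint B e = (starRingEnd ℂ) l • e) (x : E) :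
    (inner ℂ e (NormedSpace.exp B x) : ℂ) = Complex.exp l * inner ℂ e x := by
  have h1 := dual_inner B e x 1
  rw [dual, exp_eigen _ hB, inner_smul_left, ← Complex.exp_conj] at h1
  simp only [Complex.ofReal_one, one_smul, one_mul, Complex.conj_conj] at h1
  exact h1.symm

theorem exp_eig1 (B : E →L[ℂ] E) {e : E} {l : ℂ} (hB : B e = l • e) :
    NormedSpace.exp B e = Complex.exp l • e := by
  have h1 := exp_eigen B hB 1
  simpa using h1

/-- the flow -/
noncomputable def vK (A : E →L[ℂ] E) (m : ℝ) (e : E) (z : E) (t : ℝ) : E :=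
  (NormedSpace.exp (((-t : ℝ) : ℂ) • A)) (NormedSpace.exp (cc m (inner ℂ e z) t • Hop A) z)

/-- the phase -/
noncomputable def ph (m : ℝ) (l : ℂ) (t : ℝ) : ℂ := Complex.exp ((t : ℂ) * (l - (m : ℂ)))

/-- the field -/
noncomputable def hK (A : E →L[ℂ] E) (m : ℝ) (e : E) (l : ℂ) (z : E) (t : ℝ) : E :=
  A z - (2 * (ph m l t * inner ℂ e z) / (1 + ph m l t * inner ℂ e z)) • Hop A z

theorem ph_norm {l : ℂ} (hl : l.re = m) (t : ℝ) : ‖ph m l t‖ = 1 := by
  rw [ph, Complex.norm_exp, Complex.re_ofReal_mul, Complex.sub_re, Complex.ofReal_re, hl, sub_self,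
    mul_zero, Real.exp_zero]

theorem inner_lt {e z : E} (he : ‖e‖ = 1) (hz : ‖z‖ < 1) : ‖(inner ℂ e z : ℂ)‖ < 1 :=
  (norm_inner_le_norm e z).trans_lt (by rw [he, one_mul]; exact hz)

/-- the data of the extremal direction -/
structure Dir (A : E →L[ℂ] E) (m : ℝ) (e : E) (l : ℂ) : Prop where
  n : ‖e‖ = 1
  eig : A e = l • e
  adj : ContinuousLinearMap.adjoint A e = (starRingEnd ℂ) l • e
  re : l.re = m

variable {e : E} {l : ℂ}

theorem Dir.H (hD : Dir A m e l) : Hop A e = (m : ℂ) • e := Hop_eig hD.re hD.eig hD.adj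

theorem Dir.innerH (hD : Dir A m e l) (c : ℂ) (x : E) :
    (inner ℂ e (NormedSpace.exp (c • Hop A) x) : ℂ) = Complex.exp (c * m) * inner ℂ e x := by
  apply inner_exp
  rw [← ContinuousLinearMap.star_eq_adjoint, star_smul, ContinuousLinearMap.star_eq_adjoint,
    Hop_adjoint, smul_apply, hD.H, smul_smul, map_mul, Complex.conj_ofReal]
  rfl

theorem Dir.innerA (hD : Dir A m e l) (t : ℝ) (x : E) :
    (inner ℂ e ((NormedSpace.exp ((t : ℂ) • A)) x) : ℂ) = Complex.exp ((t : ℂ) * l) * inner ℂ e x := by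
  apply inner_exp
  rw [← ContinuousLinearMap.star_eq_adjoint, star_smul, ContinuousLinearMap.star_eq_adjoint,
    smul_apply, hD.adj, smul_smul, map_mul, Complex.conj_ofReal]
  congr 2
  exact Complex.conj_ofReal t

/-- the coordinate of the flow -/
theorem vK_coord (hm : 0 < m) (hD : Dir A m e l) {z : E} (hz : ‖z‖ < 1) {t : ℝ} (ht : 0 ≤ t) :
    ph m l t * inner ℂ e (vK A m e z t) = BB.psi (Real.exp (-(m * t))) (inner ℂ e z) := by
  have hw := inner_lt hD.n hz
  rw [← cc_exp hm ht hw, vK, hD.innerA, hD.innerH, ph, ← mul_assoc, ← mul_assoc, ← Complex.exp_add,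
    ← mul_assoc]
  congr 3
  push_cast
  ring

theorem vK_hasDerivAt (hm : 0 < m) (hA : IsStarNormal A) (hD : Dir A m e l) {z : E} (hz : ‖z‖ < 1)
    {t : ℝ} (ht : 0 ≤ t) :
    HasDerivAt (vK A m e z) (-(hK A m e l (vK A m e z t) t)) t := by
  have hw := inner_lt hD.n hz
  have h1 := exp_hasDerivAt' A (-t)
  have h2 : HasDerivAt (fun s : ℝ => NormedSpace.exp (((-s : ℝ) : ℂ) • A))
      (-(A * NormedSpace.exp (((-t : ℝ) : ℂ) • A))) t := by
    have h3 := h1.scomp t (hasDerivAt_neg t)
    rw [neg_one_smul] at h3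
    exact h3
  set q : ℂ := 2 * BB.psi (Real.exp (-(m * t))) (inner ℂ e z) /
    (1 + BB.psi (Real.exp (-(m * t))) (inner ℂ e z)) with hq
  have h3 : HasDerivAt (fun s : ℝ => NormedSpace.exp (cc m (inner ℂ e z) s • Hop A) z)
      ((q • (Hop A * NormedSpace.exp (cc m (inner ℂ e z) t • Hop A))) z) t := by
    have h4 := exp_cx_hasDerivAt (Hop A) (cc_hasDerivAt hm ht hw)
    exact ((ContinuousLinearMap.apply ℂ E z).restrictScalars ℝ).hasFDerivAt.comp_hasDerivAt t h4
  have h4 : HasDerivAt (vK A m e z)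
      ((-(A * NormedSpace.exp (((-t : ℝ) : ℂ) • A)))
        (NormedSpace.exp (cc m (inner ℂ e z) t • Hop A) z) +
        (NormedSpace.exp (((-t : ℝ) : ℂ) • A))
          ((q • (Hop A * NormedSpace.exp (cc m (inner ℂ e z) t • Hop A))) z)) t := by
    have h5 := ((isBoundedBilinearMap_apply (𝕜 := ℂ) (E := E) (F := E)).hasFDerivAt
      (NormedSpace.exp (((-t : ℝ) : ℂ) • A),
        NormedSpace.exp (cc m (inner ℂ e z) t • Hop A) z)).restrictScalars ℝ
    have h6 := h5.comp_hasDerivAt t (h2.prodMk h3)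
    rw [add_comm]
    exact h6
  refine HasDerivAt.congr_deriv (f' := _) h4 ?_
  have hcomm : ∀ x : E, (NormedSpace.exp (((-t : ℝ) : ℂ) • A)) (Hop A x) =
      Hop A ((NormedSpace.exp (((-t : ℝ) : ℂ) • A)) x) := by
    intro x
    let _ : NormedAlgebra ℚ (E →L[ℂ] E) := NormedAlgebra.restrictScalars ℚ ℂ _
    have h5 : Commute (((-t : ℝ) : ℂ) • A) (Hop A) := (Hop_comm hA).smul_left _
    have h6 := h5.exp_left
    exact congrArg (fun L : E →L[ℂ] E => L x) h6
  have e1 : (NormedSpace.exp (((-t : ℝ) : ℂ) • A))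
      ((q • (Hop A * NormedSpace.exp (cc m (inner ℂ e z) t • Hop A))) z) =
      q • Hop A (vK A m e z t) := by
    have : (q • (Hop A * NormedSpace.exp (cc m (inner ℂ e z) t • Hop A))) z =
      q • Hop A (NormedSpace.exp (cc m (inner ℂ e z) t • Hop A) z) := rfl
    rw [this, map_smul, hcomm]
    rfl
  have e2 : (-(A * NormedSpace.exp (((-t : ℝ) : ℂ) • A)))
        (NormedSpace.exp (cc m (inner ℂ e z) t • Hop A) z) = -(A (vK A m e z t)) := rfl
  rw [e1, e2, hK, vK_coord hm hD hz ht, ← hq]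
  abel

theorem pp_re_pos {w : ℂ} (hw : ‖w‖ < 1) : 0 < (1 - 2 * w / (1 + w)).re := by
  have h1 := one_add_ne hw
  have h2 : 1 - 2 * w / (1 + w) = (1 - w) / (1 + w) := by field_simp; ring
  rw [h2, Complex.div_re, ← add_div]
  have h3 : 0 < Complex.normSq (1 + w) := Complex.normSq_pos.2 h1
  apply div_pos _ h3
  have h4 : ‖w‖ ^ 2 < 1 := by nlinarith [norm_nonneg w]
  rw [← Complex.normSq_eq_norm_sq, Complex.normSq_apply] at h4
  simp only [Complex.sub_re, Complex.add_re, Complex.one_re, Complex.sub_im, Complex.add_im,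
    Complex.one_im]
  nlinarith

/-- the real part of the field -/
theorem hK_re (z x : E) (t : ℝ) : (inner ℂ x (A x - (2 * (ph m l t * inner ℂ e z) /
      (1 + ph m l t * inner ℂ e z)) • Hop A x)).re =
    (1 - 2 * (ph m l t * inner ℂ e z) / (1 + ph m l t * inner ℂ e z)).re *
      (inner ℂ x (A x)).re := by
  rw [inner_sub_right, inner_smul_right, Hop_inner, Complex.sub_re, Complex.re_mul_ofReal,
    Complex.sub_re, Complex.one_re]
  ring

theorem vK_norm (hN : Num A m k) (hA : IsStarNormal A) (hD : Dir A m e l) {z : E} (hz : ‖z‖ < 1)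
    {t : ℝ} (ht : 0 ≤ t) : ‖vK A m e z t‖ ≤ ‖z‖ := by
  have hm := hN.pos
  have hw := inner_lt hD.n hz
  have h0 : vK A m e z 0 = z := by
    rw [vK, cc_zero hw]
    simp
  have hanti : AntitoneOn (fun s => ‖vK A m e z s‖ ^ 2) (Icc 0 t) := by
    apply antitoneOn_of_deriv_nonpos (convex_Icc _ _)
    · intro s hs
      exact (hasDerivAt_normSq (vK_hasDerivAt hm hA hD hz hs.1)).continuousAt.continuousWithinAt
    · intro s hs
      rw [interior_Icc] at hs
      exact (hasDerivAt_normSq (vK_hasDerivAt hm hA hD hz hs.1.le)).differentiableAt.differentiableWithinAt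
    · intro s hs
      rw [interior_Icc] at hs
      rw [(hasDerivAt_normSq (vK_hasDerivAt hm hA hD hz hs.1.le)).deriv, inner_neg_right,
        Complex.neg_re, hK, hK_re, vK_coord hm hD hz hs.1.le]
      have h1 := pp_re_pos (psi_norm hm hs.1.le hw)
      have h2 := hN.lower (vK A m e z s)
      have h3 : 0 ≤ m * ‖vK A m e z s‖ ^ 2 := by positivity
      have h4 := mul_nonneg h1.le (h3.trans h2)
      linarith
  have h1 := hanti (left_mem_Icc.2 ht) (right_mem_Icc.2 ht) ht
  simp only [h0] at h1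
  exact (pow_le_pow_iff_left₀ (norm_nonneg _) (norm_nonneg _) two_ne_zero).1 h1

theorem hK_cont {z : E} (hz : ‖z‖ < 1) (hD : Dir A m e l) : Continuous (hK A m e l z) := by
  unfold hK
  have h1 : Continuous (fun t : ℝ => ph m l t) := by unfold ph; fun_prop
  have h2 : Continuous (fun t : ℝ => 2 * (ph m l t * inner ℂ e z) / (1 + ph m l t * inner ℂ e z)) := by
    apply Continuous.div (by fun_prop) (by fun_prop)
    intro t
    apply one_add_ne
    rw [norm_mul, ph_norm hD.re, one_mul]
    exact inner_lt hD.n hz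
  fun_prop

theorem hK_isCara (hN : Num A m k) (hD : Dir A m e l) (t : ℝ) :
    IsCara A (fun z => hK A m e l z t) := by
  have hm := hN.pos
  have hne : ∀ z ∈ ball (0 : E) 1, ‖ph m l t * inner ℂ e z‖ < 1 := by
    intro z hz
    rw [mem_ball_zero_iff] at hz
    rw [norm_mul, ph_norm hD.re, one_mul]
    exact inner_lt hD.n hz
  have hin : ∀ z : E, AnalyticAt ℂ (fun z : E => (inner ℂ e z : ℂ)) z := fun z =>
    (innerSL ℂ e).analyticAt z
  have hq : ∀ z ∈ ball (0 : E) 1, AnalyticAt ℂ (fun z : E =>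
      2 * (ph m l t * inner ℂ e z) / (1 + ph m l t * inner ℂ e z)) z := by
    intro z hz
    apply AnalyticAt.div
    · exact analyticAt_const.mul (analyticAt_const.mul (hin z))
    · exact analyticAt_const.add (analyticAt_const.mul (hin z))
    · exact one_add_ne (hne z hz)
  constructor
  · intro z hz
    exact (A.analyticAt z).sub ((hq z hz).smul ((Hop A).analyticAt z))
  · simp [hK]
  · have h1 : HasFDerivAt (fun z : E => (2 * (ph m l t * inner ℂ e z) /
        (1 + ph m l t * inner ℂ e z)) • Hop A z) (0 : E →L[ℂ] E) 0 := by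
      have h2 := ((hq 0 (mem_ball_self one_pos)).differentiableAt.hasFDerivAt).smul
        ((Hop A).hasFDerivAt (x := (0 : E)))
      refine HasFDerivAt.congr_fderiv h2 ?_
      ext x
      simp
    have h2 := (A.hasFDerivAt (x := (0 : E))).sub h1
    rw [sub_zero] at h2
    exact h2.fderiv
  · intro z hz hz0
    show 0 < (inner ℂ z (hK A m e l z t)).re
    rw [hK, hK_re]
    apply mul_pos (pp_re_pos (hne z hz))
    have := hN.lower z
    have hzn : 0 < ‖z‖ := norm_pos_iff.2 hz0
    have : 0 < m * ‖z‖ ^ 2 := by positivity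
    linarith

theorem hK_isHerglotz (hN : Num A m k) (hD : Dir A m e l) : IsHerglotz A (hK A m e l) :=
  ⟨Eventually.of_forall fun t _ => hK_isCara hN hD t, fun z hz =>
    (hK_cont (by simpa using hz) hD).aestronglyMeasurable⟩

theorem vK_ac (hm : 0 < m) (hA : IsStarNormal A) (hD : Dir A m e l) {z : E} (hz : ‖z‖ < 1) {T : ℝ}
    (hT : 0 ≤ T) : AbsolutelyContinuousOnInterval (vK A m e z) 0 T := by
  have hw := inner_lt hD.n hz
  have hcv : ContinuousOn (vK A m e z) (Icc 0 T) := fun t ht =>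
    (vK_hasDerivAt hm hA hD hz ht.1).continuousAt.continuousWithinAt
  have hcont : ContinuousOn (fun t : ℝ => ‖hK A m e l (vK A m e z t) t‖) (Icc 0 T) := by
    apply ContinuousOn.norm
    have h1 : ContinuousOn (fun t : ℝ => A (vK A m e z t) -
        (2 * BB.psi (Real.exp (-(m * t))) (inner ℂ e z) /
          (1 + BB.psi (Real.exp (-(m * t))) (inner ℂ e z))) • Hop A (vK A m e z t)) (Icc 0 T) := by
      have hp : ContinuousOn (fun t : ℝ => BB.psi (Real.exp (-(m * t))) (inner ℂ e z)) (Icc 0 T) :=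
        fun t ht => (psi_hasDerivAt hm ht.1 hw).continuousAt.continuousWithinAt
      have h2 : ContinuousOn (fun t : ℝ => 2 * BB.psi (Real.exp (-(m * t))) (inner ℂ e z) /
          (1 + BB.psi (Real.exp (-(m * t))) (inner ℂ e z))) (Icc 0 T) :=
        (continuousOn_const.mul hp).div (continuousOn_const.add hp)
          (fun t ht => one_add_ne (psi_norm hm ht.1 hw))
      exact (A.continuous.comp_continuousOn hcv).sub
        (h2.smul ((Hop A).continuous.comp_continuousOn hcv))
    refine h1.congr fun t ht => ?_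
    rw [hK, vK_coord hm hD hz ht.1]
  obtain ⟨C, hCb⟩ := isCompact_Icc.exists_bound_of_continuousOn hcont
  have hlip : LipschitzOnWith (Real.toNNReal C) (vK A m e z) (uIcc 0 T) := by
    rw [uIcc_of_le hT]
    refine (convex_Icc 0 T).lipschitzOnWith_of_nnnorm_hasDerivWithin_le
      (fun t ht => (vK_hasDerivAt hm hA hD hz ht.1).hasDerivWithinAt) ?_
    intro t ht
    rw [← NNReal.coe_le_coe, coe_nnnorm, norm_neg]
    have h1 := hCb t ht
    rw [norm_norm] at h1
    exact h1.trans (Real.le_coe_toNNReal C)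
  exact hlip.absolutelyContinuousOnInterval

theorem vK_isLoewner (hN : Num A m k) (hA : IsStarNormal A) (hD : Dir A m e l) :
    IsLoewner (hK A m e l) (vK A m e) := by
  have hm := hN.pos
  refine ⟨fun z hz t ht => ?_, fun z hz => ?_, fun z hz T hT => ?_, fun z hz => ?_⟩
  · rw [mem_ball_zero_iff] at hz ⊢
    exact (vK_norm hN hA hD hz ht).trans_lt hz
  · rw [mem_ball_zero_iff] at hz
    rw [vK, cc_zero (inner_lt hD.n hz)]
    simp
  · rw [mem_ball_zero_iff] at hz
    exact vK_ac hm hA hD hz hT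
  · rw [mem_ball_zero_iff] at hz
    exact Eventually.of_forall fun t ht => vK_hasDerivAt hm hA hD hz ht

end Pool.Agent.helper29.GR
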