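import Pool.Agent.helper29.GR.Koebe2

/-!
# The Koebe map of a normal operator and the sharp examples
-/

set_option autoImplicit false

namespace Pool.Agent.helper29.GR

open Metric MeasureTheory Set Filter Topology
open Pool.Agent.helper37.PR

section gen

variable {E : Type*} [NormedAddCommGroup E] [InnerProductSpace ℂ E] [CompleteSpace E]
variable {A : E →L[ℂ] E} {m k : ℝ} {e : E} {l : ℂ}

theorem exp_analytic (B : E →L[ℂ] E) : AnalyticAt ℂ (NormedSpace.exp : (E →L[ℂ] E) → E →L[ℂ] E) B :=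
  NormedSpace.exp_analytic (𝕂 := ℂ) B

/-- analyticity of the exponential flow with analytic exponent -/
theorem expflow_analytic (B : E →L[ℂ] E) {c : ℂ → ℂ} {z : E} (hc : AnalyticAt ℂ c (inner ℂ e z)) :
    AnalyticAt ℂ (fun z : E => NormedSpace.exp (c (inner ℂ e z) • B) z) z := by
  have hin : AnalyticAt ℂ (fun z : E => (inner ℂ e z : ℂ)) z := (innerSL ℂ e).analyticAt z
  have h1 : AnalyticAt ℂ (fun z : E => c (inner ℂ e z)) z :=
    AnalyticAt.comp (g := c) (f := fun z : E => (inner ℂ e z : ℂ)) hc hin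
  have h2 : AnalyticAt ℂ (fun z : E => c (inner ℂ e z) • B) z := h1.smul analyticAt_const
  have h3 : AnalyticAt ℂ (fun z : E => NormedSpace.exp (c (inner ℂ e z) • B)) z :=
    AnalyticAt.comp (g := (NormedSpace.exp : (E →L[ℂ] E) → E →L[ℂ] E))
      (f := fun z : E => c (inner ℂ e z) • B) (exp_analytic _) h2
  have h4 := (ContinuousLinearMap.id ℂ (E →L[ℂ] E)).analyticAt_bilinear
    (NormedSpace.exp (c (inner ℂ e z) • B), z)
  exact AnalyticAt.comp (g := fun p : (E →L[ℂ] E) × E => (ContinuousLinearMap.id ℂ (E →L[ℂ] E)) p.1 p.2)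
    (f := fun z : E => (NormedSpace.exp (c (inner ℂ e z) • B), z)) h4 (h3.prod analyticAt_id)

theorem expflow_fderiv (B : E →L[ℂ] E) {c : ℂ → ℂ} (hc : AnalyticAt ℂ c 0) (h0 : c 0 = 0) :
    HasFDerivAt (fun z : E => NormedSpace.exp (c (inner ℂ e z) • B) z)
      (ContinuousLinearMap.id ℂ E) 0 := by
  have hin0 : (inner ℂ e (0 : E) : ℂ) = 0 := inner_zero_right _
  have hin : AnalyticAt ℂ (fun z : E => (inner ℂ e z : ℂ)) 0 := (innerSL ℂ e).analyticAt 0
  have h1 : AnalyticAt ℂ (fun z : E => c (inner ℂ e z)) 0 :=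
    AnalyticAt.comp (g := c) (f := fun z : E => (inner ℂ e z : ℂ)) (by rw [hin0]; exact hc) hin
  have h2 : AnalyticAt ℂ (fun z : E => c (inner ℂ e z) • B) 0 := h1.smul analyticAt_const
  have h3 : AnalyticAt ℂ (fun z : E => NormedSpace.exp (c (inner ℂ e z) • B)) 0 :=
    AnalyticAt.comp (g := (NormedSpace.exp : (E →L[ℂ] E) → E →L[ℂ] E))
      (f := fun z : E => c (inner ℂ e z) • B) (exp_analytic _) h2
  have h4 := h3.differentiableAt.hasFDerivAt.clm_apply (hasFDerivAt_id (0 : E))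
  refine HasFDerivAt.congr_fderiv h4 ?_
  ext x
  simp [h0]

/-- the Koebe map -/
noncomputable def FK (A : E →L[ℂ] E) (m : ℝ) (e : E) (z : E) : E :=
  NormedSpace.exp (cinf m (inner ℂ e z) • Hop A) z

theorem FK_limit (hm : 0 < m) (hD : Dir A m e l) :
    TendstoLocallyUniformlyOn (fun (t : ℝ) z => (NormedSpace.exp ((t : ℂ) • A)) (vK A m e z t))
      (FK A m e) atTop (ball 0 1) := by
  have h0 : ∀ (t : ℝ) (z : E), (NormedSpace.exp ((t : ℂ) • A)) (vK A m e z t) =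
      NormedSpace.exp (cc m (inner ℂ e z) t • Hop A) z := fun t z => exp_cancel A t _
  simp only [h0]
  rw [tendstoLocallyUniformlyOn_iff_filter]
  intro x hx
  rw [mem_ball_zero_iff] at hx
  have hw := inner_lt hD.n hx
  rw [tendstoUniformlyOnFilter_iff_tendsto]
  have hfst : Tendsto (fun q : ℝ × E => q.1) (atTop ×ˢ 𝓝[ball 0 1] x) atTop := tendsto_fst
  have hsnd : Tendsto (fun q : ℝ × E => q.2) (atTop ×ˢ 𝓝[ball 0 1] x) (𝓝 x) :=
    tendsto_snd.mono_right nhdsWithin_le_nhds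
  have hin : Tendsto (fun q : ℝ × E => (inner ℂ e q.2 : ℂ)) (atTop ×ˢ 𝓝[ball 0 1] x)
      (𝓝 (inner ℂ e x)) := ((innerSL ℂ e).continuous.tendsto x).comp hsnd
  have hc := cc_tendsto hm hw hfst hin
  have hcinf : Tendsto (fun q : ℝ × E => cinf m (inner ℂ e q.2)) (atTop ×ˢ 𝓝[ball 0 1] x)
      (𝓝 (cinf m (inner ℂ e x))) := ((cinf_analytic hw).continuousAt.tendsto).comp hin
  have hexp : Continuous (fun p : ℂ × E => NormedSpace.exp (p.1 • Hop A) p.2) := by
    let _ : NormedAlgebra ℚ (E →L[ℂ] E) := NormedAlgebra.restrictScalars ℚ ℂ _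
    have h1 : Continuous (fun p : ℂ × E => NormedSpace.exp (p.1 • Hop A)) :=
      (NormedSpace.exp_continuous (𝔸 := E →L[ℂ] E)).comp (by fun_prop)
    exact h1.clm_apply continuous_snd
  have h1 := (hexp.tendsto (cinf m (inner ℂ e x), x)).comp (hc.prodMk_nhds hsnd)
  have h2 := (hexp.tendsto (cinf m (inner ℂ e x), x)).comp (hcinf.prodMk_nhds hsnd)
  exact (h2.prodMk_nhds h1).mono_right (nhds_le_uniformity _)

theorem FK_paramRep (hN : Num A m k) (hA : IsStarNormal A) (hD : Dir A m e l) :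
    ParamRep A (FK A m e) := by
  have hm := hN.pos
  have hc0 : cinf m 0 = 0 := by simp [cinf]
  refine ⟨?_, ?_, ?_, hK A m e l, vK A m e, hK_isHerglotz hN hD, vK_isLoewner hN hA hD,
    FK_limit hm hD⟩
  · intro z hz
    rw [mem_ball_zero_iff] at hz
    exact expflow_analytic (Hop A) (cinf_analytic (inner_lt hD.n hz))
  · simp [FK]
  · exact (expflow_fderiv (Hop A) (cinf_analytic (by simp)) hc0).fderiv

theorem vK_analytic (hm : 0 < m) (hD : Dir A m e l) {T : ℝ} (hT : 0 ≤ T) :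
    AnalyticOnNhd ℂ (fun z => vK A m e z T) (ball 0 1) := by
  intro z hz
  rw [mem_ball_zero_iff] at hz
  have h1 := expflow_analytic (Hop A) (cc_analytic hm hT (inner_lt hD.n hz))
  exact AnalyticAt.comp (g := fun y => (NormedSpace.exp (((-T : ℝ) : ℂ) • A)) y)
    (f := fun z : E => NormedSpace.exp (cc m (inner ℂ e z) T • Hop A) z)
    ((NormedSpace.exp (((-T : ℝ) : ℂ) • A)).analyticAt _) h1

theorem vK_fderiv (hm : 0 < m) {T : ℝ} (hT : 0 ≤ T) :
    HasFDerivAt (fun z => vK A m e z T) (NormedSpace.exp (((-T : ℝ) : ℂ) • A)) 0 := by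
  have h1 := expflow_fderiv (e := e) (Hop A) (cc_analytic hm hT (w := 0) (by simp)) (cc_at_zero hm hT)
  exact (NormedSpace.exp (((-T : ℝ) : ℂ) • A)).hasFDerivAt.comp (0 : E) h1

/-- the value of the Koebe map on the axis -/
theorem FK_axis (hm : 0 < m) (hD : Dir A m e l) {r : ℝ} (hr1 : r < 1) :
    FK A m e ((r : ℂ) • e) = ((Kf r : ℝ) : ℂ) • e := by
  have hin : (inner ℂ e ((r : ℂ) • e) : ℂ) = r := by
    rw [inner_smul_right, inner_self_eq_norm_sq_to_K, hD.n]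
    simp
  rw [FK, hin, map_smul, exp_eig1 (cinf m r • Hop A) (e := e) (l := cinf m r * m) (by
    rw [smul_apply, hD.H, smul_smul]), smul_smul]
  congr 1
  have h1 : cinf m r * m = -(2 * ((Real.log (1 - r) : ℝ) : ℂ)) := by
    have h7 : (m : ℂ) ≠ 0 := by exact_mod_cast hm.ne'
    rw [cinf, Complex.ofReal_log (by linarith)]
    push_cast
    field_simp
  have h2 : Complex.exp (cinf m r * m) = (((1 - r) ^ 2)⁻¹ : ℝ) := by
    rw [h1]
    have h3 : -(2 * ((Real.log (1 - r) : ℝ) : ℂ)) = ((-(2 * Real.log (1 - r)) : ℝ) : ℂ) := by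
      push_cast; ring
    rw [h3, ← Complex.ofReal_exp, Real.exp_neg, two_mul, Real.exp_add,
      Real.exp_log (by linarith), pow_two]
  rw [h2, Kf]
  push_cast
  rw [div_eq_mul_inv]

/-- the value of the flow on the axis -/
theorem vK_axis (hm : 0 < m) (hD : Dir A m e l) {r T : ℝ} (hr : 0 ≤ r) (hr1 : r < 1)
    (hT : 0 ≤ T) : ∃ ζ : ℂ, vK A m e ((r : ℂ) • e) T = ζ • e ∧
      ‖ζ‖ = ‖BB.psi (Real.exp (-(m * T))) r‖ := by
  have hin : (inner ℂ e ((r : ℂ) • e) : ℂ) = r := by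
    rw [inner_smul_right, inner_self_eq_norm_sq_to_K, hD.n]
    simp
  have hzn : ‖(r : ℂ) • e‖ < 1 := by
    rw [norm_smul, hD.n, Complex.norm_real, Real.norm_eq_abs, abs_of_nonneg hr, mul_one]
    exact hr1
  have h1 : ∃ ζ : ℂ, vK A m e ((r : ℂ) • e) T = ζ • e := by
    rw [vK, hin, map_smul, exp_eig1 (cc m r T • Hop A) (e := e) (l := cc m r T * m) (by
      rw [smul_apply, hD.H, smul_smul]), smul_smul, map_smul,
      exp_eigen A hD.eig (-T), smul_smul]
    exact ⟨_, rfl⟩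
  obtain ⟨ζ, hζ⟩ := h1
  refine ⟨ζ, hζ, ?_⟩
  have h2 := vK_coord hm hD hzn hT
  rw [hζ, hin, inner_smul_right, inner_self_eq_norm_sq_to_K, hD.n] at h2
  rw [← h2, norm_mul, ph_norm hD.re, one_mul]
  simp

end gen

/-- the one dimensional flow at the time when the Koebe function has the value 2 -/
theorem psi_half {r q : ℝ} (hr : 0 ≤ r) (hr1 : r < 1) (h : q * Kf r = 2) : BB.psi q (r : ℂ) = (1 / 2 : ℝ) := by
  have hrn : ‖(r : ℂ)‖ < 1 := by
    rw [Complex.norm_real, Real.norm_eq_abs, abs_of_nonneg hr]; exact hr1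
  have hK : BB.Kb (r : ℂ) = ((Kf r : ℝ) : ℂ) := by
    rw [BB.Kb, Kf]
    push_cast
    rfl
  have hS : BB.Sg (r : ℂ) ^ 2 = 1 + 4 * ((Kf r : ℝ) : ℂ) := by
    have h1 : (1 - (r : ℂ)) ≠ 0 := one_sub_ne hrn
    rw [BB.Sg, Kf]
    push_cast
    field_simp
    ring
  have hB : BB.Bs q (r : ℂ) = ((9 : ℝ) : ℂ) := by
    rw [BB.Bs, hS]
    have h1 : ((q : ℝ) : ℂ) * ((Kf r : ℝ) : ℂ) = 2 := by
      rw [← Complex.ofReal_mul, h]; norm_num
    have h2 : 1 + (q : ℂ) * (1 + 4 * ((Kf r : ℝ) : ℂ) - 1) = 1 + 4 * ((q : ℂ) * ((Kf r : ℝ) : ℂ)) := by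
      ring
    rw [h2, h1]
    norm_num
  have hQ : BB.Qf q (r : ℂ) ^ 2 = 3 := by
    rw [BB.Qf, hB, ← Complex.cpow_nat_mul]
    have h1 : ((2 : ℕ) : ℂ) * (1 / 4 : ℂ) = (((1 / 2 : ℝ) : ℝ) : ℂ) := by push_cast; norm_num
    rw [h1, ← Complex.ofReal_cpow (by norm_num)]
    have h2 : (9 : ℝ) ^ (1 / 2 : ℝ) = 3 := by
      rw [← Real.sqrt_eq_rpow, show (9 : ℝ) = 3 ^ 2 by norm_num, Real.sqrt_sq (by norm_num)]
    rw [h2]
    norm_num
  rw [BB.psi, hQ]
  push_cast
  norm_num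

end Pool.Agent.helper29.GR
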