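import Pool.Agent.helper29.GR.Up

/-!
# Growth of maps with `A`-parametric representation: the late part of the flow
-/

set_option autoImplicit false

namespace Pool.Agent.helper29.GR

open Metric MeasureTheory Set Filter Topology
open Pool.Agent.helper37.PR
open scoped NNReal

variable {E : Type*} [NormedAddCommGroup E] [InnerProductSpace ℂ E] [CompleteSpace E]
variable {A : E →L[ℂ] E} {m k : ℝ} {h v : E → ℝ → E}

theorem dual_contDiff (A : E →L[ℂ] E) (u : E) : ContDiff ℝ 1 (dual A u) := by
  rw [contDiff_one_iff_deriv]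
  refine ⟨fun t => (dual_hasDerivAt A u t).differentiableAt, ?_⟩
  have h1 : deriv (dual A u) = fun t => ContinuousLinearMap.adjoint A (dual A u t) := by
    funext t; exact (dual_hasDerivAt A u t).deriv
  rw [h1]
  have h2 : Continuous (dual A u) :=
    continuous_iff_continuousAt.2 fun t => (dual_hasDerivAt A u t).continuousAt
  exact (ContinuousLinearMap.continuous _).comp h2

theorem dual_shift_ac (A : E →L[ℂ] E) (u : E) (S a b : ℝ) :
    AbsolutelyContinuousOnInterval (fun t => dual A u (t - S)) a b := by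
  apply ContDiffOn.absolutelyContinuousOnInterval
  apply ContDiff.contDiffOn
  exact (dual_contDiff A u).comp (contDiff_id.sub contDiff_const)

theorem dual_shift_hasDerivAt (A : E →L[ℂ] E) (u : E) (S t : ℝ) :
    HasDerivAt (fun t => dual A u (t - S))
      (ContinuousLinearMap.adjoint A (dual A u (t - S))) t := by
  have := (dual_hasDerivAt A u (t - S)).comp_sub_const t S
  exact this

/-- `min (1/10) ((2m - k)/(8m))` -/
noncomputable def rho0 (m k : ℝ) : ℝ := min (1 / 10) ((2 * m - k) / (8 * m))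

theorem rho0_pos (hm : 0 < m) (hk : k < 2 * m) : 0 < rho0 m k := by
  rw [rho0]
  apply lt_min (by norm_num)
  have : 0 < 2 * m - k := by linarith
  positivity

theorem rho0_le : rho0 m k ≤ 1 / 10 := min_le_left _ _

theorem rho0_mu (hm : 0 < m) (hk : k < 2 * m) :
    (2 * m - k) / 2 ≤ 2 * (m * (1 - rho0 m k) / (1 + rho0 m k)) - k := by
  have h1 := rho0_pos hm hk
  have h2 : rho0 m k ≤ (2 * m - k) / (8 * m) := min_le_right _ _
  rw [le_div_iff₀ (by positivity)] at h2
  have h3 : 2 * m - 4 * m * rho0 m k ≤ 2 * (m * (1 - rho0 m k) / (1 + rho0 m k)) := by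
    have : 2 * (m * (1 - rho0 m k) / (1 + rho0 m k)) =
        (2 * m * (1 - rho0 m k)) / (1 + rho0 m k) := by ring
    rw [this, le_div_iff₀ (by positivity)]
    nlinarith [mul_pos hm h1, mul_pos (mul_pos hm h1) h1]
  nlinarith

/-- the constant of the late estimate -/
noncomputable def CL (A : E →L[ℂ] E) (m k : ℝ) : ℝ := 196 * ‖A‖ / ((2 * m - k) / 2)

omit [CompleteSpace E] in
theorem CL_nonneg (A : E →L[ℂ] E) (hk : k < 2 * m) : 0 ≤ CL A m k := by
  rw [CL]
  have : 0 < 2 * m - k := by linarith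
  positivity

/-- the late estimate -/
theorem late (hN : Num A m k) (hk : k < 2 * m) (hh : IsHerglotz A h) (hv : IsLoewner h v) {z : E}
    (hz : z ∈ ball (0 : E) 1) {S T : ℝ} (hS : 0 ≤ S) (hST : S ≤ T) (hρ : ‖v z S‖ ≤ rho0 m k) :
    ‖(NormedSpace.exp (((T - S : ℝ) : ℂ) • A)) (v z T) - v z S‖ ≤ CL A m k * ‖v z S‖ ^ 2 := by
  have hm := hN.pos
  set δ : ℝ := (2 * m - k) / 2 with hδ
  have hδ0 : 0 < δ := by rw [hδ]; linarith
  set a : ℝ := ‖v z S‖ with ha
  have ha0 : 0 ≤ a := norm_nonneg _
  have hCL : CL A m k = 196 * ‖A‖ / δ := rfl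
  set μ : ℝ := m * (1 - rho0 m k) / (1 + rho0 m k) with hμ
  have hμδ : δ ≤ 2 * μ - k := rho0_mu hm hk
  have hμa : μ ≤ m * (1 - a) / (1 + a) := by
    have h1 := rho0_pos hm hk
    rw [hμ, div_le_div_iff₀ (by positivity) (by positivity)]
    nlinarith
  apply norm_le_of_re (by have := CL_nonneg A hk; positivity)
  intro u hu
  have hd : ∀ᵐ t : ℝ, S ≤ t → t ≤ T → HasDerivAt
      (fun t => (inner ℂ (dual A u (t - S)) (v z t)).re + (CL A m k * a ^ 2) *
        Real.exp (-δ * (t - S)))
      (((inner ℂ (dual A u (t - S)) (-(h (v z t) t))).re +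
        (inner ℂ (ContinuousLinearMap.adjoint A (dual A u (t - S))) (v z t)).re) +
        (CL A m k * a ^ 2) * (Real.exp (-δ * (t - S)) * (-δ))) t ∧
      ((inner ℂ (dual A u (t - S)) (-(h (v z t) t))).re +
        (inner ℂ (ContinuousLinearMap.adjoint A (dual A u (t - S))) (v z t)).re) +
        (CL A m k * a ^ 2) * (Real.exp (-δ * (t - S)) * (-δ)) ≤ 0 := by
    filter_upwards [hh.cara, hv.ode z hz] with t h1 h2 ht htT
    have ht0 : 0 ≤ t := hS.trans ht
    refine ⟨?_, ?_⟩
    · have e1 : HasDerivAt (fun t : ℝ => Real.exp (-δ * (t - S)))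
          (Real.exp (-δ * (t - S)) * (-δ)) t := by
        have := (((hasDerivAt_id t).sub_const S).const_mul (-δ)).exp
        simpa using this
      exact (hasDerivAt_reInner (dual_shift_hasDerivAt A u S t) (h2 ht0)).add (e1.const_mul _)
    · have hV : ‖v z t‖ ≤ a * Real.exp (-(μ * (t - S))) :=
        flow_decay' hN hh hv hz hS ht hμa
      have hVa : ‖v z t‖ ≤ a := flow_anti hh hv hz hS ht
      have hV4 : ‖v z t‖ < 1 / 4 := by
        have := rho0_le (m := m) (k := k)
        linarith
      have hU := dual_upper hN u (T := t - S) (by linarith)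
      rw [hu, one_mul] at hU
      have hrem := remainder2 (h1 ht0) hV4
      have e1 : (inner ℂ (dual A u (t - S)) (-(h (v z t) t))).re +
          (inner ℂ (ContinuousLinearMap.adjoint A (dual A u (t - S))) (v z t)).re =
          -(inner ℂ (dual A u (t - S)) (h (v z t) t - A (v z t))).re := by
        rw [ContinuousLinearMap.adjoint_inner_left, inner_neg_right, Complex.neg_re,
          inner_sub_right, Complex.sub_re]
        ring
      rw [e1]
      have e2 : -(inner ℂ (dual A u (t - S)) (h (v z t) t - A (v z t))).re ≤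
          ‖dual A u (t - S)‖ * ‖h (v z t) t - A (v z t)‖ := by
        have h3 := norm_inner_le_norm (𝕜 := ℂ) (dual A u (t - S)) (h (v z t) t - A (v z t))
        have h4 := (abs_le.1 (Complex.abs_re_le_norm
          (inner ℂ (dual A u (t - S)) (h (v z t) t - A (v z t))))).1
        linarith
      have e3 : ‖dual A u (t - S)‖ * ‖h (v z t) t - A (v z t)‖ ≤
          Real.exp (k * (t - S)) * (196 * ‖A‖ * (a * Real.exp (-(μ * (t - S)))) ^ 2) := by
        have hA := norm_nonneg A
        refine mul_le_mul hU (hrem.trans ?_) (norm_nonneg _) (Real.exp_pos _).le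
        gcongr
      have e4 : Real.exp (k * (t - S)) * (196 * ‖A‖ * (a * Real.exp (-(μ * (t - S)))) ^ 2) ≤
          196 * ‖A‖ * a ^ 2 * Real.exp (-δ * (t - S)) := by
        have h3 : Real.exp (k * (t - S)) * Real.exp (-(μ * (t - S))) ^ 2 ≤
            Real.exp (-δ * (t - S)) := by
          rw [← Real.exp_nat_mul, ← Real.exp_add]
          apply Real.exp_le_exp.2
          push_cast
          nlinarith
        calc _ = 196 * ‖A‖ * a ^ 2 *
              (Real.exp (k * (t - S)) * Real.exp (-(μ * (t - S))) ^ 2) := by ring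
          _ ≤ _ := by gcongr
      have e5 : (CL A m k * a ^ 2) * (Real.exp (-δ * (t - S)) * (-δ)) =
          -(196 * ‖A‖ * a ^ 2 * Real.exp (-δ * (t - S))) := by
        rw [hCL]
        field_simp
      rw [e5]
      linarith
  have hac : AbsolutelyContinuousOnInterval (fun t => (inner ℂ (dual A u (t - S)) (v z t)).re +
      (CL A m k * a ^ 2) * Real.exp (-δ * (t - S))) S T := by
    refine (ac_reInner (dual_shift_ac A u S S T) (ac_sub hv hz hS hST)).add ?_
    apply ContDiffOn.absolutelyContinuousOnInterval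
    fun_prop
  have h1 := acle hST hac hd
  simp only [sub_self, mul_zero, Real.exp_zero, mul_one, dual_zero] at h1
  rw [dual_inner] at h1
  rw [inner_sub_right, Complex.sub_re]
  have h2 : 0 ≤ CL A m k * a ^ 2 * Real.exp (-δ * (T - S)) := by
    have := CL_nonneg A hk
    positivity
  linarith

/-! ### the linear flow -/

theorem num_adjoint (hN : Num A m k) : Num (ContinuousLinearMap.adjoint A) m k :=
  ⟨hN.pos, fun x => by rw [reInner_adjoint]; exact hN.lower x,
    fun x => by rw [reInner_adjoint]; exact hN.upper x⟩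

theorem exp_upper (hN : Num A m k) (x : E) {T : ℝ} (hT : 0 ≤ T) :
    ‖(NormedSpace.exp ((T : ℂ) • A)) x‖ ≤ ‖x‖ * Real.exp (k * T) := by
  have h1 := dual_upper (num_adjoint hN) x hT
  rwa [dual, ContinuousLinearMap.adjoint_adjoint] at h1

theorem exp_lower (hN : Num A m k) (x : E) {T : ℝ} (hT : 0 ≤ T) :
    ‖x‖ ≤ ‖(NormedSpace.exp ((T : ℂ) • A)) x‖ := by
  have h1 := dual_lower (num_adjoint hN) x hT
  rwa [dual, ContinuousLinearMap.adjoint_adjoint] at h1

theorem exp_split (A : E →L[ℂ] E) (S T : ℝ) (x : E) :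
    (NormedSpace.exp ((T : ℂ) • A)) x =
      (NormedSpace.exp ((S : ℂ) • A)) ((NormedSpace.exp (((T - S : ℝ) : ℂ) • A)) x) := by
  have h1 : NormedSpace.exp ((T : ℂ) • A) =
      NormedSpace.exp ((S : ℂ) • A) * NormedSpace.exp (((T - S : ℝ) : ℂ) • A) := by
    let _ : NormedAlgebra ℚ (E →L[ℂ] E) := NormedAlgebra.restrictScalars ℚ ℂ _
    rw [← NormedSpace.exp_add_of_commute]
    · rw [← add_smul]; congr 2; push_cast; ring
    · exact ((Commute.refl A).smul_left _).smul_right _
  rw [h1]; rfl

/-- the two bounds at a time when the trajectory is small -/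
theorem split_bounds (hN : Num A m k) (hk : k < 2 * m) (hh : IsHerglotz A h) (hv : IsLoewner h v)
    {z : E} (hz : z ∈ ball (0 : E) 1) {S T : ℝ} (hS : 0 ≤ S) (hST : S ≤ T)
    (hρ : ‖v z S‖ ≤ rho0 m k) :
    ‖(NormedSpace.exp ((T : ℂ) • A)) (v z T)‖ ≤
      (‖v z S‖ + CL A m k * ‖v z S‖ ^ 2) * Real.exp (k * S) ∧
    ‖v z S‖ - CL A m k * ‖v z S‖ ^ 2 ≤ ‖(NormedSpace.exp ((T : ℂ) • A)) (v z T)‖ := by
  have h1 := late hN hk hh hv hz hS hST hρ
  rw [exp_split A S T]
  set y := (NormedSpace.exp (((T - S : ℝ) : ℂ) • A)) (v z T) with hy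
  constructor
  · refine (exp_upper hN y hS).trans ?_
    apply mul_le_mul_of_nonneg_right _ (Real.exp_pos _).le
    have := norm_le_norm_add_norm_sub' y (v z S)
    linarith
  · refine le_trans ?_ (exp_lower hN y hS)
    have h2 := norm_sub_norm_le (v z S) y
    rw [norm_sub_rev] at h2
    linarith

end Pool.Agent.helper29.GR
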