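import Pool.Agent.helper29.GR.Koebe3
import Pool.Agent.helper29.GR.Growth
import Pool.Agent.helper29.GR.Comp

/-!
# Maps of maximal growth
-/

set_option autoImplicit false

namespace Pool.Agent.helper29.GR

open Metric MeasureTheory Set Filter Topology
open Pool.Agent.helper37.PR

variable {E : Type} [NormedAddCommGroup E] [InnerProductSpace ℂ E] [CompleteSpace E]
variable {A : E →L[ℂ] E} {m k : ℝ} {e₁ e₂ : E} {l₁ l₂ : ℂ}

theorem fext_e2 (hF : Frame A m k e₁ e₂ l₁ l₂) (ζ : ℂ) :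
    fext m k e₁ e₂ (ζ • e₂) = ζ • e₂ + (((a0 m k / (2 * m - k) : ℝ) : ℂ) * ζ ^ 2) • e₁ := by
  have h1 : co e₂ (ζ • e₂) = ζ := by
    have h2 : co e₂ (ζ • e₂) = inner ℂ e₂ (ζ • e₂) := rfl
    rw [h2, inner_smul_right, hF.self2, mul_one]
  rw [fext, h1, smul_smul]

theorem fext_e1 (hF : Frame A m k e₁ e₂ l₁ l₂) (ζ : ℂ) :
    fext m k e₁ e₂ (ζ • e₁) = ζ • e₁ := by
  have h1 : co e₂ (ζ • e₁) = 0 := by
    have h2 : co e₂ (ζ • e₁) = inner ℂ e₂ (ζ • e₁) := rfl
    rw [h2, inner_smul_right, hF.ortho, mul_zero]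
  rw [fext, h1]
  simp

/-- the constant of the lower bound -/
noncomputable def c1 (m k : ℝ) : ℝ := (1 / 4 : ℝ) ^ (k / m) * min 1 (a0 m k / (4 * (2 * m - k)))

theorem c1_pos (hm : 0 < m) (hk0 : 0 < k) (hk : k < 2 * m) : 0 < c1 m k := by
  have h1 : 0 < 2 * m - k := by linarith
  have h2 := a0_pos hm hk0
  rw [c1]
  have h3 : 0 < min 1 (a0 m k / (4 * (2 * m - k))) := lt_min one_pos (by positivity)
  positivity

theorem rpow_quarter {r : ℝ} (hr1 : r < 1) {p : ℝ} (hp : 0 ≤ p) (h : 1 / 2 ≤ 1 - r) :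
    (1 / 4 : ℝ) ^ p * (1 - r) ^ (-(2 * p)) ≤ 1 := by
  have h0 : 0 < 1 - r := by linarith
  have h1 : (1 / 4 : ℝ) ^ p = (1 / 2 : ℝ) ^ (2 * p) := by
    rw [Real.rpow_mul (by norm_num)]
    norm_num
  rw [h1, Real.rpow_neg h0.le, ← div_eq_mul_inv, div_le_one (by positivity)]
  exact Real.rpow_le_rpow (by norm_num) h (by positivity)

/-- maps with the maximal order of growth -/
theorem growth_sharp (hN : Num A m k) (hk : k < 2 * m) (hA : IsStarNormal A)
    (hF : Frame A m k e₁ e₂ l₁ l₂) {r : ℝ} (hr : 0 < r) (hr1 : r < 1) :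
    ∃ f : E → E, ParamRep A f ∧
      c1 m k * (r * (1 - r) ^ (-(2 * k / m))) ≤ ‖f ((r : ℂ) • e₂)‖ := by
  have hm := hN.pos
  have hmk := hN.m_le_k hF.n1
  have hk0 : 0 < k := lt_of_lt_of_le hm hmk
  have hδ : 0 < 2 * m - k := by linarith
  have ha := a0_pos hm hk0
  have h1r : 0 < 1 - r := by linarith
  have hkm : 0 ≤ k / m := by positivity
  have hexp : -(2 * k / m) = -(2 * (k / m)) := by ring
  have hq0 : 0 < (1 / 4 : ℝ) ^ (k / m) := by positivity
  have hx0 : 0 < (1 - r) ^ (-(2 * k / m)) := Real.rpow_pos_of_pos h1r _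
  by_cases hr2 : r < 1 / 2
  · refine ⟨fext m k e₁ e₂, fext_paramRep hN hk hF, ?_⟩
    rw [fext_e2 hF]
    have h1 : ‖(inner ℂ e₂ ((r : ℂ) • e₂ + (((a0 m k / (2 * m - k) : ℝ) : ℂ) * (r : ℂ) ^ 2) • e₁) : ℂ)‖
        = r := by
      rw [inner_add_right, inner_smul_right, inner_smul_right, hF.self2, hF.ortho, mul_zero,
        add_zero, mul_one, Complex.norm_real, Real.norm_eq_abs, abs_of_pos hr]
    have h2 := norm_inner_le_norm (𝕜 := ℂ) e₂
      ((r : ℂ) • e₂ + (((a0 m k / (2 * m - k) : ℝ) : ℂ) * (r : ℂ) ^ 2) • e₁)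
    rw [h1, hF.n2, one_mul] at h2
    refine le_trans ?_ h2
    have h3 := rpow_quarter hr1 hkm (by linarith)
    have h4 : c1 m k ≤ (1 / 4 : ℝ) ^ (k / m) := by
      rw [c1]
      have : min 1 (a0 m k / (4 * (2 * m - k))) ≤ 1 := min_le_left _ _
      nlinarith
    calc c1 m k * (r * (1 - r) ^ (-(2 * k / m)))
        ≤ (1 / 4 : ℝ) ^ (k / m) * (r * (1 - r) ^ (-(2 * k / m))) := by
          apply mul_le_mul_of_nonneg_right h4 (by positivity)
      _ = ((1 / 4 : ℝ) ^ (k / m) * (1 - r) ^ (-(2 * (k / m)))) * r := by rw [hexp]; ring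
      _ ≤ 1 * r := mul_le_mul_of_nonneg_right h3 hr.le
      _ = r := one_mul r
  · push Not at hr2
    have hD : Dir A m e₂ l₂ := ⟨hF.n2, hF.eig2, hF.adj2, hF.re2⟩
    have hK2 : 2 ≤ Kf r := by
      rw [Kf, le_div_iff₀ (by positivity)]
      nlinarith
    have hKpos : 0 < Kf r := by linarith
    set T : ℝ := 1 / m * Real.log (Kf r / 2) with hTdef
    have hT : 0 ≤ T := by
      have : 0 ≤ Real.log (Kf r / 2) := Real.log_nonneg (by linarith)
      positivity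
    have hmT : m * T = Real.log (Kf r / 2) := by
      rw [hTdef]; field_simp
    have hq : Real.exp (-(m * T)) * Kf r = 2 := by
      rw [hmT, Real.exp_neg, Real.exp_log (by positivity)]
      field_simp
    obtain ⟨ζ, hζ, hζn⟩ := vK_axis hm hD hr.le hr1 hT
    rw [psi_half hr.le hr1 hq] at hζn
    have hζ2 : ‖ζ‖ = 1 / 2 := by
      rw [hζn, Complex.norm_real, Real.norm_eq_abs, abs_of_pos (by norm_num)]
    have hV0 : vK A m e₂ 0 T = 0 := by
      simp [vK]
    refine ⟨fun z => (NormedSpace.exp ((T : ℂ) • A)) (fext m k e₁ e₂ (vK A m e₂ z T)),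
      comp_paramRep (fext_paramRep hN hk hF) hT (hK_isHerglotz hN hD) (vK_isLoewner hN hA hD)
        (vK_analytic hm hD hT) hV0 (vK_fderiv hm hT), ?_⟩
    show c1 m k * (r * (1 - r) ^ (-(2 * k / m))) ≤
      ‖(NormedSpace.exp ((T : ℂ) • A)) (fext m k e₁ e₂ (vK A m e₂ ((r : ℂ) • e₂) T))‖
    rw [hζ, fext_e2 hF]
    set w : E := ζ • e₂ + (((a0 m k / (2 * m - k) : ℝ) : ℂ) * ζ ^ 2) • e₁ with hw
    have hD1 : Dir A k e₁ l₁ := ⟨hF.n1, hF.eig1, hF.adj1, hF.re1⟩
    have h1 := norm_inner_le_norm (𝕜 := ℂ) e₁ ((NormedSpace.exp ((T : ℂ) • A)) w)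
    rw [hF.n1, one_mul, hD1.innerA, norm_mul, Complex.norm_exp, Complex.re_ofReal_mul, hF.re1] at h1
    have h2 : (inner ℂ e₁ w : ℂ) = ((a0 m k / (2 * m - k) : ℝ) : ℂ) * ζ ^ 2 := by
      rw [hw, inner_add_right, inner_smul_right, inner_smul_right, hF.self1, hF.ortho', mul_zero,
        zero_add, mul_one]
    rw [h2, norm_mul, norm_pow, hζ2, Complex.norm_real, Real.norm_eq_abs,
      abs_of_pos (by positivity)] at h1
    refine le_trans ?_ h1
    have h3 : Real.exp (T * k) = (Kf r / 2) ^ (k / m) := by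
      rw [Real.rpow_def_of_pos (by positivity), hTdef]
      congr 1
      ring
    have h4 : (1 / 4 : ℝ) ^ (k / m) * (1 - r) ^ (-(2 * k / m)) ≤ (Kf r / 2) ^ (k / m) := by
      have h5 : (1 - r) ^ (-(2 * k / m)) = (((1 - r) ^ 2)⁻¹) ^ (k / m) := by
        rw [hexp, Real.rpow_neg h1r.le, Real.rpow_mul h1r.le, Real.inv_rpow (by positivity)]
        norm_num
      rw [h5, ← Real.mul_rpow (by norm_num) (by positivity)]
      apply Real.rpow_le_rpow (by positivity) _ hkm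
      have h8 : Kf r / 2 = (r / 2) * ((1 - r) ^ 2)⁻¹ := by rw [Kf]; ring
      rw [h8]
      exact mul_le_mul_of_nonneg_right (by linarith) (by positivity)
    rw [h3]
    have h6 : c1 m k ≤ (1 / 4 : ℝ) ^ (k / m) * (a0 m k / (4 * (2 * m - k))) := by
      rw [c1]
      exact mul_le_mul_of_nonneg_left (min_le_right _ _) hq0.le
    have h7 : 0 < a0 m k / (4 * (2 * m - k)) := by positivity
    calc c1 m k * (r * (1 - r) ^ (-(2 * k / m)))
        ≤ c1 m k * (1 * (1 - r) ^ (-(2 * k / m))) := by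
          have := c1_pos hm hk0 hk
          gcongr
      _ ≤ ((1 / 4 : ℝ) ^ (k / m) * (a0 m k / (4 * (2 * m - k)))) * (1 * (1 - r) ^ (-(2 * k / m))) := by
          apply mul_le_mul_of_nonneg_right h6 (by positivity)
      _ = ((1 / 4 : ℝ) ^ (k / m) * (1 - r) ^ (-(2 * k / m))) * (a0 m k / (4 * (2 * m - k))) := by
          ring
      _ ≤ (Kf r / 2) ^ (k / m) * (a0 m k / (4 * (2 * m - k))) :=
          mul_le_mul_of_nonneg_right h4 h7.le
      _ = (Kf r / 2) ^ (k / m) * (a0 m k / (2 * m - k) * (1 / 2) ^ 2) := by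
          field_simp
          ring

/-- a map with the minimal order of growth -/
theorem small_sharp (hN : Num A m k) (hk : k < 2 * m) (hF : Frame A m k e₁ e₂ l₁ l₂) {r : ℝ}
    (hr : 0 < r) : ∃ f : E → E, ParamRep A f ∧ ‖(r : ℂ) • e₁‖ = r ∧ ‖f ((r : ℂ) • e₁)‖ = r := by
  have h1 : ‖(r : ℂ) • e₁‖ = r := by
    rw [norm_smul, hF.n1, Complex.norm_real, Real.norm_eq_abs, abs_of_pos hr, mul_one]
  refine ⟨fext m k e₁ e₂, fext_paramRep hN hk hF, h1, ?_⟩
  rw [fext_e1 hF, h1]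

/-- the sharp bound for the component along an eigenvector of smallest real part -/
theorem comp_sharp (hN : Num A m k) (hA : IsStarNormal A) {e : E} {l : ℂ} (hD : Dir A m e l)
    {r : ℝ} (hr : 0 < r) (hr1 : r < 1) :
    IsGreatest {x : ℝ | ∃ f : E → E, ParamRep A f ∧ ∃ z : E, ‖z‖ = r ∧ x = ‖(inner ℂ e (f z) : ℂ)‖}
      (r / (1 - r) ^ 2) := by
  constructor
  · refine ⟨FK A m e, FK_paramRep hN hA hD, (r : ℂ) • e, ?_, ?_⟩
    · rw [norm_smul, hD.n, Complex.norm_real, Real.norm_eq_abs, abs_of_pos hr, mul_one]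
    · rw [FK_axis hN.pos hD hr1, inner_smul_right, inner_self_eq_norm_sq_to_K, hD.n, norm_mul,
        Complex.norm_real, Real.norm_eq_abs, abs_of_pos (Kf_pos hr hr1)]
      simp [Kf]
  · rintro x ⟨f, hf, z, hz, rfl⟩
    have h1 := comp_bound hN hf (z := z) (by rw [mem_ball_zero_iff, hz]; exact hr1) hD.n hD.re hD.adj
    rw [hz] at h1
    exact h1

end Pool.Agent.helper29.GR
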