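import Pool.Agent.helper37.PR.Lower

/-!
# Growth of maps with `A`-parametric representation: estimates along the flow
-/

set_option autoImplicit false

namespace Pool.Agent.helper29.GR

open Metric MeasureTheory Set Filter Topology
open Pool.Agent.helper37.PR
open scoped NNReal

/-! ### absolutely continuous functions -/

theorem acle {g g' : ℝ → ℝ} {a b : ℝ} (hab : a ≤ b) (hg : AbsolutelyContinuousOnInterval g a b)
    (hd : ∀ᵐ t : ℝ, a ≤ t → t ≤ b → HasDerivAt g (g' t) t ∧ g' t ≤ 0) : g b ≤ g a := by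
  have h1 := hg.integral_deriv_eq_sub
  have h2 : ∫ x in a..b, deriv g x ≤ ∫ x in a..b, (0 : ℝ) := by
    apply intervalIntegral.integral_mono_ae_restrict hab hg.intervalIntegrable_deriv
      (intervalIntegrable_const)
    filter_upwards [ae_restrict_of_ae hd, ae_restrict_mem measurableSet_Icc] with t ht hmem
    obtain ⟨h3, h4⟩ := ht hmem.1 hmem.2
    rw [h3.deriv]; exact h4
  simp only [intervalIntegral.integral_zero] at h2
  linarith

theorem ac_comp {g : ℝ → ℝ} {φ : ℝ → ℝ} {s : Set ℝ} {K : ℝ≥0} {a b : ℝ}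
    (hg : AbsolutelyContinuousOnInterval g a b) (hφ : LipschitzOnWith K φ s)
    (hs : ∀ t ∈ uIcc a b, g t ∈ s) : AbsolutelyContinuousOnInterval (fun t => φ (g t)) a b := by
  rw [absolutelyContinuousOnInterval_iff] at hg ⊢
  intro ε hε
  obtain ⟨δ, hδ, h⟩ := hg (ε / ((K : ℝ) + 1)) (by positivity)
  refine ⟨δ, hδ, fun E hE hlen => ?_⟩
  have h1 := h E hE hlen
  have h2 : ∑ i ∈ Finset.range E.1, dist (φ (g (E.2 i).1)) (φ (g (E.2 i).2)) ≤
      (K : ℝ) * ∑ i ∈ Finset.range E.1, dist (g (E.2 i).1) (g (E.2 i).2) := by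
    rw [Finset.mul_sum]
    exact Finset.sum_le_sum fun i hi =>
      hφ.dist_le_mul _ (hs _ (hE.1 i hi).1) _ (hs _ (hE.1 i hi).2)
  have h3 : 0 ≤ ∑ i ∈ Finset.range E.1, dist (g (E.2 i).1) (g (E.2 i).2) :=
    Finset.sum_nonneg fun _ _ => dist_nonneg
  rw [lt_div_iff₀ (by positivity)] at h1
  have hK : (0 : ℝ) ≤ K := K.2
  nlinarith

/-! ### the Koebe function -/

/-- `x / (1 - x)²` -/
noncomputable def Kf (x : ℝ) : ℝ := x / (1 - x) ^ 2

theorem Kf_hasDerivAt {x : ℝ} (hx : x < 1) : HasDerivAt Kf ((1 + x) / (1 - x) ^ 3) x := by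
  have h0 : (1 - x) ≠ 0 := by linarith
  have h1 : HasDerivAt (fun x : ℝ => (1 - x) ^ 2) (2 * (1 - x) * (-1)) x := by
    have := ((hasDerivAt_id x).const_sub 1).fun_pow 2
    simpa using this
  have h2 := (hasDerivAt_id x).div h1 (pow_ne_zero 2 h0)
  have h3 : HasDerivAt Kf ((1 * (1 - x) ^ 2 - id x * (2 * (1 - x) * (-1))) / ((1 - x) ^ 2) ^ 2) x := h2
  convert h3 using 1
  simp only [id]
  field_simp
  ring

theorem Kf_lip {r : ℝ} (hr : r < 1) :
    LipschitzOnWith (Real.toNNReal (2 / (1 - r) ^ 3)) Kf (Icc 0 r) := by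
  apply (convex_Icc 0 r).lipschitzOnWith_of_nnnorm_hasDerivWithin_le
    (f' := fun x => (1 + x) / (1 - x) ^ 3)
  · intro x hx
    exact (Kf_hasDerivAt (lt_of_le_of_lt hx.2 hr)).hasDerivWithinAt
  · intro x hx
    have h1 : 0 < 1 - r := by linarith
    have h2 : 1 - r ≤ 1 - x := by linarith [hx.2]
    have h3 : 0 < 1 - x := by linarith
    rw [← NNReal.coe_le_coe, coe_nnnorm, Real.coe_toNNReal _ (by positivity), Real.norm_eq_abs,
      abs_of_nonneg (by have := hx.1; positivity)]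
    have h4 : 1 + x ≤ 2 := by linarith [hx.2]
    gcongr

theorem Kf_mono {x y : ℝ} (hx : 0 ≤ x) (hxy : x ≤ y) (hy : y < 1) : Kf x ≤ Kf y := by
  rw [Kf, Kf]
  have h1 : 0 < 1 - y := by linarith
  have h2 : 1 - y ≤ 1 - x := by linarith
  have h3 : 0 < 1 - x := by linarith
  have h4 : 0 ≤ y := hx.trans hxy
  gcongr

theorem Kf_le_iff {x y : ℝ} (hy : 0 ≤ y) (hx1 : x < 1) (h : Kf x ≤ Kf y) : x ≤ y := by
  by_contra hlt
  push Not at hlt
  have h1 : Kf y < Kf x := by
    rw [Kf, Kf]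
    have h2 : 0 < 1 - x := by linarith
    have h3 : 0 < 1 - y := by linarith
    rw [div_lt_div_iff₀ (by positivity) (by positivity)]
    have h4 : (1 - x) ^ 2 ≤ (1 - y) ^ 2 := by
      apply pow_le_pow_left₀ h2.le
      linarith
    nlinarith [mul_nonneg hy (sub_nonneg.2 h4), mul_pos (sub_pos.2 hlt) (pow_pos h3 2)]
  linarith

theorem Kf_nonneg {x : ℝ} (hx : 0 ≤ x) : 0 ≤ Kf x := by
  rw [Kf]; positivity

theorem Kf_pos {x : ℝ} (hx : 0 < x) (hx1 : x < 1) : 0 < Kf x := by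
  rw [Kf]
  have : 0 < 1 - x := by linarith
  positivity

theorem le_Kf {x : ℝ} (hx : 0 ≤ x) (hx1 : x < 1) : x ≤ Kf x := by
  rw [Kf, le_div_iff₀ (by have : 0 < 1 - x := by linarith
                          positivity)]
  have : (1 - x) ^ 2 ≤ 1 := by
    apply pow_le_one₀ <;> linarith
  nlinarith

variable {E : Type*} [NormedAddCommGroup E] [InnerProductSpace ℂ E]
variable {A : E →L[ℂ] E} {m k : ℝ} {h v : E → ℝ → E}

theorem norm_hasDerivAt {x : ℝ → E} {x' : E} {t : ℝ} (hx : HasDerivAt x x' t) (h0 : 0 < ‖x t‖) :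
    HasDerivAt (fun t => ‖x t‖) ((inner ℂ (x t) x').re / ‖x t‖) t := by
  have h1 := (hasDerivAt_normSq hx).sqrt (by positivity)
  rw [Real.sqrt_sq (norm_nonneg _)] at h1
  have h2 : (fun t => √(‖x t‖ ^ 2)) = fun t => ‖x t‖ := by
    funext t; exact Real.sqrt_sq (norm_nonneg _)
  rw [h2] at h1
  convert h1 using 1
  field_simp

theorem norm_le_of_re {y : E} {C : ℝ} (hC : 0 ≤ C)
    (h : ∀ u : E, ‖u‖ = 1 → (inner ℂ u y).re ≤ C) : ‖y‖ ≤ C := by
  by_cases hy : y = 0
  · rw [hy, norm_zero]; exact hC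
  have hyn : 0 < ‖y‖ := norm_pos_iff.2 hy
  have h1 := h ((((‖y‖⁻¹ : ℝ)) : ℂ) • y) (by
    rw [norm_smul, Complex.norm_real, norm_inv, norm_norm, inv_mul_cancel₀ hyn.ne'])
  rw [inner_smul_left, Complex.conj_ofReal, Complex.re_ofReal_mul, reInner_self] at h1
  have h2 : ‖y‖⁻¹ * ‖y‖ ^ 2 = ‖y‖ := by
    field_simp
  rwa [h2] at h1

theorem ac_sub (hv : IsLoewner h v) {z : E} (hz : z ∈ ball (0 : E) 1) {S T : ℝ} (hS : 0 ≤ S)
    (hST : S ≤ T) : AbsolutelyContinuousOnInterval (v z) S T := by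
  refine (hv.ac z hz T (hS.trans hST)).mono ?_
  rw [uIcc_of_le hST, uIcc_of_le (hS.trans hST)]
  exact Icc_subset_Icc_left hS

theorem flow_anti (hh : IsHerglotz A h) (hv : IsLoewner h v) {z : E} (hz : z ∈ ball (0 : E) 1)
    {S T : ℝ} (hS : 0 ≤ S) (hST : S ≤ T) : ‖v z T‖ ≤ ‖v z S‖ := by
  have h1 := acle hST (ac_normSq (ac_sub hv hz hS hST))
    (g' := fun t => 2 * (inner ℂ (v z t) (-(h (v z t) t))).re) (by
      filter_upwards [hh.cara, hv.ode z hz] with t h1 h2 ht _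
      have ht0 : 0 ≤ t := hS.trans ht
      refine ⟨hasDerivAt_normSq (h2 ht0), ?_⟩
      have h3 := (h1 ht0).nonneg (hv.mem z hz t ht0)
      rw [inner_neg_right, Complex.neg_re]
      linarith)
  exact (pow_le_pow_iff_left₀ (norm_nonneg _) (norm_nonneg _) two_ne_zero).1 h1

theorem ac_exp' (c a b : ℝ) : AbsolutelyContinuousOnInterval (fun t : ℝ => Real.exp (c * t)) a b := by
  apply ContDiffOn.absolutelyContinuousOnInterval
  fun_prop

theorem exp_hasDerivAt_real (c t : ℝ) :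
    HasDerivAt (fun t : ℝ => Real.exp (c * t)) (Real.exp (c * t) * c) t := by
  have := ((hasDerivAt_id t).const_mul c).exp
  simpa using this

variable [CompleteSpace E]

theorem flow_decay' (hN : Num A m k) (hh : IsHerglotz A h) (hv : IsLoewner h v) {z : E}
    (hz : z ∈ ball (0 : E) 1) {S T : ℝ} (hS : 0 ≤ S) (hST : S ≤ T) {μ : ℝ}
    (hμ : μ ≤ m * (1 - ‖v z S‖) / (1 + ‖v z S‖)) :
    ‖v z T‖ ≤ ‖v z S‖ * Real.exp (-(μ * (T - S))) := by
  have h1 := acle hST ((ac_exp' (2 * μ) S T).mul (ac_normSq (ac_sub hv hz hS hST)))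
    (g' := fun t => (Real.exp (2 * μ * t) * (2 * μ)) * ‖v z t‖ ^ 2 +
      Real.exp (2 * μ * t) * (2 * (inner ℂ (v z t) (-(h (v z t) t))).re)) (by
      filter_upwards [hh.cara, hv.ode z hz] with t h1 h2 ht _
      have ht0 : 0 ≤ t := hS.trans ht
      refine ⟨(exp_hasDerivAt_real (2 * μ) t).mul (hasDerivAt_normSq (h2 ht0)), ?_⟩
      have h3 := harnack_vec (h1 ht0) hN.pos hN.lower (z := v z t)
        (by simpa using hv.mem z hz t ht0)
      have h4 := flow_anti hh hv hz hS ht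
      have h5 : μ ≤ m * (1 - ‖v z t‖) / (1 + ‖v z t‖) := by
        refine hμ.trans ?_
        have h6 := norm_nonneg (v z t)
        have h7 := norm_nonneg (v z S)
        rw [div_le_div_iff₀ (by positivity) (by positivity)]
        nlinarith [hN.pos]
      rw [inner_neg_right, Complex.neg_re]
      have h7 : μ * ‖v z t‖ ^ 2 ≤ (inner ℂ (v z t) (h (v z t) t)).re :=
        (mul_le_mul_of_nonneg_right h5 (by positivity)).trans h3
      have h8 := Real.exp_pos (2 * μ * t)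
      nlinarith)
  simp only [Pi.mul_apply] at h1
  have h2 : ‖v z T‖ ^ 2 ≤ (‖v z S‖ * Real.exp (-(μ * (T - S)))) ^ 2 := by
    rw [mul_pow, ← Real.exp_nat_mul]
    have h3 : Real.exp (((2 : ℕ) : ℝ) * -(μ * (T - S))) =
        Real.exp (2 * μ * S) * (Real.exp (2 * μ * T))⁻¹ := by
      rw [← Real.exp_neg, ← Real.exp_add]; congr 1; push_cast; ring
    rw [h3, ← mul_assoc, ← div_eq_mul_inv, le_div_iff₀ (Real.exp_pos _)]
    linarith
  exact (pow_le_pow_iff_left₀ (norm_nonneg _) (by positivity) two_ne_zero).1 h2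

/-- the Koebe estimate -/
theorem flow_koebe (hN : Num A m k) (hh : IsHerglotz A h) (hv : IsLoewner h v) {z : E}
    (hz : z ∈ ball (0 : E) 1) {T : ℝ} (hT : 0 ≤ T) :
    Real.exp (m * T) * Kf ‖v z T‖ ≤ Kf ‖z‖ := by
  have hz1 : ‖z‖ < 1 := by simpa using hz
  by_cases h0 : ‖v z T‖ = 0
  · rw [h0]
    have : Kf 0 = 0 := by simp [Kf]
    rw [this, mul_zero]
    exact Kf_nonneg (norm_nonneg _)
  have hpos : ∀ t, 0 ≤ t → t ≤ T → 0 < ‖v z t‖ := by
    intro t ht htT
    have h1 := flow_anti hh hv hz ht htT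
    have h2 : 0 < ‖v z T‖ := lt_of_le_of_ne (norm_nonneg _) (Ne.symm h0)
    linarith
  have hac := hv.ac z hz T hT
  have h1 := acle hT ((ac_exp' m 0 T).mul (ac_comp (ac_norm hac) (Kf_lip hz1) (by
      intro t ht
      rw [uIcc_of_le hT] at ht
      exact ⟨norm_nonneg _, flow_le hh hv hz ht.1⟩)))
    (g' := fun t => (Real.exp (m * t) * m) * Kf ‖v z t‖ +
      Real.exp (m * t) * ((1 + ‖v z t‖) / (1 - ‖v z t‖) ^ 3 *
        ((inner ℂ (v z t) (-(h (v z t) t))).re / ‖v z t‖))) (by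
      filter_upwards [hh.cara, hv.ode z hz] with t h1 h2 ht htT
      have hw := hpos t ht htT
      have hw1 : ‖v z t‖ < 1 := by simpa using hv.mem z hz t ht
      refine ⟨(exp_hasDerivAt_real m t).mul (HasDerivAt.comp (h₂ := Kf) (h := fun t => ‖v z t‖) t
        (Kf_hasDerivAt hw1) (norm_hasDerivAt (h2 ht) hw)), ?_⟩
      have h3 := harnack_vec (h1 ht) hN.pos hN.lower (z := v z t) hw1
      set w := ‖v z t‖ with hwdef
      set R := (inner ℂ (v z t) (h (v z t) t)).re with hR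
      rw [inner_neg_right, Complex.neg_re, ← hR]
      have hw2 : 0 < 1 - w := by linarith
      have h4 : m * Kf w = (1 + w) / (1 - w) ^ 3 * ((m * (1 - w) / (1 + w) * w ^ 2) / w) := by
        rw [Kf]
        field_simp
      have h5 : (1 + w) / (1 - w) ^ 3 * ((m * (1 - w) / (1 + w) * w ^ 2) / w) ≤
          (1 + w) / (1 - w) ^ 3 * (R / w) := by
        gcongr
      have h6 := Real.exp_pos (m * t)
      have h7 : Real.exp (m * t) * m * Kf w + Real.exp (m * t) * ((1 + w) / (1 - w) ^ 3 * (-R / w)) =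
          Real.exp (m * t) * (m * Kf w - (1 + w) / (1 - w) ^ 3 * (R / w)) := by
        rw [neg_div]; ring
      rw [h7]
      exact mul_nonpos_of_nonneg_of_nonpos h6.le (by linarith))
  simpa [hv.init z hz] using h1

end Pool.Agent.helper29.GR
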